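import Mathlib
import Pool.Agent.H952R2.Sextic.CommonZero
import Pool.Agent.H734R3.LV.Lines

/-!
# Lines in complete intersections with a prescribed pattern of multiplicities

Through a point `p` of `{G = 0}` outside the zeros of the `f i` there is a line in `{G = 0}` on
which the `f i` have a prescribed pattern of multiplicities, as soon as there are fewer equations
than unknowns.
-/

set_option autoImplicit false

namespace Pool.Agent.W600.Ell

open MvPolynomial Pool.Agent.H734R3.LV

variable {k : Type*} [Field k] [IsAlgClosed k] [CharZero k]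

theorem exists_line {n : ℕ} {α τ σ : Type} [Fintype α] [DecidableEq α] [Fintype τ] [Fintype σ]
    (f : α → MvPolynomial (Fin (n + 1)) k)
    (own : σ → α) (mult : σ → ℕ) (hmult : ∀ s, 0 < mult s)
    (hdeg : ∀ i, (f i).totalDegree ≤ ∑ s with own s = i, mult s)
    (G : τ → MvPolynomial (Fin (n + 1)) k) (d : τ → ℕ) (hGd : ∀ j, (G j).totalDegree ≤ d j)
    (hcard : ∑ s, mult s + ∑ j, d j < n + Fintype.card σ) (p : Fin (n + 1) → k) (hp0 : p ≠ 0)
    (hp : ∀ i, eval p (f i) ≠ 0) (hG : ∀ j, eval p (G j) = 0) :
    ∃ v : Fin (n + 1) → k, (∀ a b : k, (fun j => a * p j + b * v j) = 0 → a = 0 ∧ b = 0) ∧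
      ∃ c : σ → k, (∀ i t, eval (fun j => p j + t * v j) (f i) =
        eval p (f i) * ∏ s with own s = i, (1 + c s * t) ^ mult s) ∧
        ∀ j t, eval (fun l => p l + t * v l) (G j) = 0 := by
  classical
  obtain ⟨j0, hj0⟩ : ∃ j, p j ≠ 0 := by
    by_contra hcon
    push Not at hcon
    exact hp0 (funext hcon)
  let ι := Fin (n + 1) ⊕ σ
  let R := MvPolynomial ι k
  let pR : Fin (n + 1) → R := fun i => C (p i)
  let vR : Fin (n + 1) → R := fun i => X (Sum.inl i)
  let D : α → ℕ := fun i => ∑ s with own s = i, mult s
  let PF : α → Polynomial R := fun i => restr (f i) pR vR - Polynomial.C (C (eval p (f i))) *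
    ∏ s with own s = i, (1 + Polynomial.C (X (Sum.inr s)) * Polynomial.X) ^ mult s
  let PG : τ → Polynomial R := fun i => restr (G i) pR vR
  let κ := ((Σ i : α, Fin (D i)) ⊕ (Σ j : τ, Fin (d j))) ⊕ Unit
  let F : κ → R := Sum.elim (Sum.elim (fun a => (PF a.1).coeff (a.2 + 1))
    (fun a => (PG a.1).coeff (a.2 + 1))) (fun _ => X (Sum.inl j0))
  have evPF : ∀ (x : ι → k) (i : α), (PF i).map (aeval x : R →ₐ[k] k).toRingHom =
      restr (f i) p (fun i => x (Sum.inl i)) - Polynomial.C (eval p (f i)) *
        ∏ s with own s = i, (1 + Polynomial.C (x (Sum.inr s)) * Polynomial.X) ^ mult s := by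
    intro x i
    have := restr_map (aeval x : R →ₐ[k] k) (f i) pR vR
    have h2 : (restr (f i) pR vR).map (aeval x : R →ₐ[k] k).toRingHom =
      restr (f i) p (fun i => x (Sum.inl i)) := by simpa [pR, vR] using this
    simp only [PF, Polynomial.map_sub, h2, Polynomial.map_mul, Polynomial.map_prod,
      Polynomial.map_pow, Polynomial.map_add, Polynomial.map_one, Polynomial.map_C,
      Polynomial.map_X]
    simp
  have evF : ∀ (x : ι → k) (i : α) (j : ℕ), eval x ((PF i).coeff j) =
      (restr (f i) p (fun i => x (Sum.inl i)) - Polynomial.C (eval p (f i)) *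
        ∏ s with own s = i, (1 + Polynomial.C (x (Sum.inr s)) * Polynomial.X) ^ mult s).coeff j := by
    intro x i j
    rw [← evPF x i, Polynomial.coeff_map]
    simp [aeval_eq_eval]
  have evG : ∀ (x : ι → k) (i : τ) (j : ℕ), eval x ((PG i).coeff j) =
      (restr (G i) p (fun i => x (Sum.inl i))).coeff j := by
    intro x i j
    have := restr_map (aeval x : R →ₐ[k] k) (G i) pR vR
    have h2 : (restr (G i) pR vR).map (aeval x : R →ₐ[k] k).toRingHom =
      restr (G i) p (fun i => x (Sum.inl i)) := by simpa [pR, vR] using this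
    rw [← h2, Polynomial.coeff_map]
    simp [aeval_eq_eval, PG]
  have restr0 : ∀ (H : MvPolynomial (Fin (n + 1)) k), restr H p (fun _ => (0 : k)) =
      Polynomial.C (eval p H) := by
    intro H
    apply Polynomial.funext
    intro t
    rw [restr_eval, Polynomial.eval_C]
    congr 2
    funext i
    ring
  have hcard' : Fintype.card κ < Fintype.card ι := by
    have : ∑ i, D i = ∑ s, mult s := by
      simp only [D]
      exact Finset.sum_fiberwise _ _ _
    simp only [κ, ι, Fintype.card_sum, Fintype.card_sigma, Fintype.card_fin, Fintype.card_unit]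
    omega
  have h0 : ∀ a, eval 0 (F a) = 0 := by
    rintro ((⟨i, j⟩ | ⟨i, j⟩) | u)
    · simp only [F, Sum.elim_inl]
      rw [evF]
      have : (fun i => (0 : ι → k) (Sum.inl i)) = fun _ : Fin (n + 1) => (0 : k) := rfl
      rw [this, restr0]
      simp
    · simp only [F, Sum.elim_inl, Sum.elim_inr]
      rw [evG]
      have : (fun i => (0 : ι → k) (Sum.inl i)) = fun _ : Fin (n + 1) => (0 : k) := rfl
      rw [this, restr0]
      simp
    · simp [F]
  obtain ⟨x, hx0, hx⟩ := Pool.Agent.H952R2.Sextic.exists_common_zero hcard' F h0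
  set v : Fin (n + 1) → k := fun i => x (Sum.inl i) with hv
  set c : σ → k := fun s => x (Sum.inr s) with hc
  have hvj0 : v j0 = 0 := by simpa [F] using hx (Sum.inr ())
  have hQ : ∀ i, restr (f i) p v = Polynomial.C (eval p (f i)) *
        ∏ s with own s = i, (1 + Polynomial.C (c s) * Polynomial.X) ^ mult s := by
    intro i
    have hQdeg : (Polynomial.C (eval p (f i)) *
        ∏ s with own s = i, (1 + Polynomial.C (c s) * Polynomial.X) ^ mult s).natDegree ≤ D i := by
      refine (Polynomial.natDegree_C_mul_le _ _).trans ?_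
      refine (Polynomial.natDegree_prod_le _ _).trans (Finset.sum_le_sum fun s _ => ?_)
      refine (Polynomial.natDegree_pow_le).trans ?_
      have h3 : (1 + Polynomial.C (c s) * Polynomial.X).natDegree ≤ 1 := by compute_degree
      nlinarith
    rw [← sub_eq_zero]
    ext j
    rw [Polynomial.coeff_zero]
    by_cases hj : j ≤ D i
    · cases j with
      | zero =>
        rw [Polynomial.coeff_zero_eq_eval_zero, Polynomial.eval_sub, restr_eval,
          Polynomial.eval_mul, Polynomial.eval_prod]
        simp
      | succ j =>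
        have := hx (Sum.inl (Sum.inl ⟨i, ⟨j, by omega⟩⟩))
        simp only [F, Sum.elim_inl] at this
        rwa [evF] at this
    · apply Polynomial.coeff_eq_zero_of_natDegree_lt
      refine lt_of_le_of_lt (Polynomial.natDegree_sub_le _ _) ?_
      exact lt_of_le_of_lt (max_le ((restr_degree p v).trans (hdeg i)) hQdeg) (not_le.1 hj)
  have hQG : ∀ i, restr (G i) p v = 0 := by
    intro i
    ext j
    rw [Polynomial.coeff_zero]
    by_cases hj : j ≤ d i
    · cases j with
      | zero =>
        rw [Polynomial.coeff_zero_eq_eval_zero, restr_eval]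
        simpa using hG i
      | succ j =>
        have := hx (Sum.inl (Sum.inr ⟨i, ⟨j, by omega⟩⟩))
        simp only [F, Sum.elim_inl, Sum.elim_inr] at this
        rwa [evG] at this
    · apply Polynomial.coeff_eq_zero_of_natDegree_lt
      exact lt_of_le_of_lt ((restr_degree p v).trans (hGd i)) (not_le.1 hj)
  have hev : ∀ i t, eval (fun j => p j + t * v j) (f i) =
        eval p (f i) * ∏ s with own s = i, (1 + c s * t) ^ mult s := by
    intro i t
    rw [← restr_eval, hQ i, Polynomial.eval_mul, Polynomial.eval_C, Polynomial.eval_prod]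
    simp
  have hv0 : v ≠ 0 := by
    intro h
    have hc0 : ∀ s, c s = 0 := by
      intro s
      by_contra hs
      have := hev (own s) (-1 / c s)
      have e1 : (fun j => p j + -1 / c s * v j) = p := by
        funext j
        rw [h]
        simp
      rw [e1] at this
      have e2 : ∏ s' with own s' = own s, (1 + c s' * (-1 / c s)) ^ mult s' = 0 := by
        apply Finset.prod_eq_zero (i := s) (by simp)
        have : 1 + c s * (-1 / c s) = 0 := by field_simp; ring
        rw [this, zero_pow (hmult s).ne']
      rw [e2, mul_zero] at this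
      exact hp _ this
    apply hx0
    funext a
    rcases a with a | a
    · exact congrFun h a
    · exact hc0 a
  refine ⟨v, fun a b hab => ?_, c, hev, fun j t => by rw [← restr_eval, hQG, Polynomial.eval_zero]⟩
  have ha : a = 0 := by
    have := congrFun hab j0
    simp only [hvj0, mul_zero, add_zero, Pi.zero_apply, mul_eq_zero] at this
    exact this.resolve_right hj0
  refine ⟨ha, ?_⟩
  by_contra hb
  apply hv0
  funext j
  have := congrFun hab j
  simp only [ha, zero_mul, zero_add, Pi.zero_apply, mul_eq_zero] at this
  exact this.resolve_left hb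

end Pool.Agent.W600.Ell
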