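import Pool.Agent.W600.Ell.Cases

/-!
# Hyperbolicity of multi-cyclic covers of complete intersections with `K + D ≤ 0`
-/

set_option autoImplicit false

namespace Pool.Agent.W600.Ell

open MvPolynomial Filter Topology Metric

/-- Liouville: the parameter `T / S` comes close to `0`. -/
theorem Par.small {S T : ℂ → ℂ} (h : Par S T) {ε : ℝ} (hε : 0 < ε) :
    ∃ z, S z ≠ 0 ∧ ‖T z‖ < ε * ‖S z‖ := by
  by_contra hcon
  push Not at hcon
  have hT : ∀ z, T z ≠ 0 := by
    intro z hz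
    have hS : S z ≠ 0 := by
      rcases h.ne z with h1 | h1
      · exact h1
      · exact absurd hz h1
    have h2 := hcon z hS
    rw [hz, norm_zero] at h2
    have := norm_pos_iff.2 hS
    nlinarith
  have hd : Differentiable ℂ fun z => S z / T z := h.hS.div h.hT hT
  have hb : Bornology.IsBounded (Set.range fun z => S z / T z) := by
    rw [isBounded_iff_forall_norm_le]
    refine ⟨1 / ε, ?_⟩
    rintro _ ⟨z, rfl⟩
    have h3 := norm_pos_iff.2 (hT z)
    show ‖S z / T z‖ ≤ 1 / ε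
    rw [norm_div, div_le_div_iff₀ h3 hε]
    by_cases hS : S z = 0
    · rw [hS, norm_zero]
      linarith
    · have := hcon z hS
      linarith
  obtain ⟨z, z', hz⟩ := h.nc
  have h4 := hd.apply_eq_apply_of_bounded hb z z'
  rw [div_eq_div_iff (hT z) (hT z')] at h4
  exact hz h4

/-- powers are open maps -/
theorem pow_nhds (c : ℂ) {m : ℕ} (hm : 0 < m) {s : Set ℂ} (hs : s ∈ 𝓝 c) :
    (fun y : ℂ => y ^ m) '' s ∈ 𝓝 (c ^ m) := by
  have ha : AnalyticAt ℂ (fun y : ℂ => y ^ m) c := analyticAt_id.pow m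
  rcases ha.eventually_constant_or_nhds_le_map_nhds with h | h
  · exfalso
    have h1 : {y : ℂ | y ^ m = c ^ m} ∈ 𝓝 c := h
    have h2 := infinite_of_mem_nhds c h1
    apply h2
    have h3 : (Polynomial.X ^ m - Polynomial.C (c ^ m) : Polynomial ℂ) ≠ 0 :=
      Polynomial.X_pow_sub_C_ne_zero hm _
    refine (Polynomial.finite_setOfPred_isRoot h3).subset fun y hy => ?_
    have hy' : y ^ m = c ^ m := hy
    simp [hy']
  · exact h (Filter.image_mem_map hs)

/-- The cone over the quasi-projective variety `X` with the equations `G = 0`, `w i ^ m i = F i (x)`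
and the condition `B (x) ≠ 0`. -/
def Pts {n r g : ℕ} (m : Fin r → ℕ) (F : Fin r → MvPolynomial (Fin (n + 1)) ℂ)
    (G : Fin g → MvPolynomial (Fin (n + 1)) ℂ) (B : MvPolynomial (Fin (n + 1)) ℂ) :
    Set ((Fin (n + 1) → ℂ) × (Fin r → ℂ)) :=
  {P | P.1 ≠ 0 ∧ (∀ i, P.2 i ^ m i = eval P.1 (F i)) ∧ (∀ i, eval P.1 (G i) = 0) ∧
    eval P.1 B ≠ 0}

/-- the value of a polynomial in `x`, `w` -/
noncomputable def val {n r : ℕ} (P : (Fin (n + 1) → ℂ) × (Fin r → ℂ))
    (H : MvPolynomial (Fin (n + 1) ⊕ Fin r) ℂ) : ℂ :=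
  eval (Sum.elim P.1 P.2) H

/-- The curve over the line through `p` and `v`. -/
theorem curve_off {n r g : ℕ} {m : Fin r → ℕ} (hm : ∀ i, 0 < m i)
    {F : Fin r → MvPolynomial (Fin (n + 1)) ℂ} {e : Fin r → ℕ}
    (hF : ∀ i, (F i).IsHomogeneous (m i * e i))
    {G : Fin g → MvPolynomial (Fin (n + 1)) ℂ} {B : MvPolynomial (Fin (n + 1)) ℂ}
    {P : (Fin (n + 1) → ℂ) × (Fin r → ℂ)} (hP : P ∈ Pts m F G B)
    (hPF : ∀ i, eval P.1 (F i) ≠ 0) (L : LineCurve m F G B P.1)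
    {H : MvPolynomial (Fin (n + 1) ⊕ Fin r) ℂ} {D : ℕ}
    (hH : IsWeightedHomogeneous (Sum.elim (fun _ => 1) e) H D) (hHP : val P H ≠ 0) :
    ∃ v : Fin (n + 1) → ℂ, (∀ a b : ℂ, (fun j => a * P.1 j + b * v j) = 0 → a = 0 ∧ b = 0) ∧
      ∃ S T : ℂ → ℂ, Par S T ∧ ∃ W : Fin r → ℂ → ℂ, (∀ i, Differentiable ℂ (W i)) ∧
        (∀ z, ((fun j => S z * P.1 j + T z * v j, fun i => W i z) :
          (Fin (n + 1) → ℂ) × (Fin r → ℂ)) ∈ Pts m F G B) ∧
        ∃ z, val (fun j => S z * P.1 j + T z * v j, fun i => W i z) H ≠ 0 := by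
  classical
  obtain ⟨v, hv, S, T, hPar, W, hW, hW'⟩ := L
  obtain ⟨p, w⟩ := P
  simp only [Pts, Set.mem_ofPred_eq] at hP
  obtain ⟨hp0, hpw, hpG, hpB⟩ := hP
  simp only at hPF hv hW'
  -- continuity
  have hΘ : Continuous fun q : ℂ × (Fin r → ℂ) =>
      eval (Sum.elim (fun j => p j + q.1 * v j) q.2) H := by
    refine (MvPolynomial.continuous_eval H).comp ?_
    rw [continuous_pi_iff]
    rintro (j | j)
    · simp only [Sum.elim_inl]
      fun_prop
    · simp only [Sum.elim_inr]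
      fun_prop
  have hΘ0 : eval (Sum.elim (fun j => p j + (0 : ℂ) * v j) w) H ≠ 0 := by
    simpa [val] using hHP
  obtain ⟨ε, hε, hball⟩ := Metric.eventually_nhds_iff.1
    ((hΘ.tendsto ((0 : ℂ), w)).eventually_ne hΘ0)
  have hce : ∀ f : MvPolynomial (Fin (n + 1)) ℂ, Continuous fun t : ℂ =>
      eval (fun j => p j + t * v j) f := fun f => (MvPolynomial.continuous_eval f).comp (by fun_prop)
  have hroot : ∀ᶠ t in 𝓝 (0 : ℂ), ∀ i, ∃ y, dist y (w i) < ε / 2 ∧
      y ^ m i = eval (fun j => p j + t * v j) (F i) := by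
    rw [Filter.eventually_all]
    intro i
    have h1 := (hce (F i)).tendsto 0
    have h0 : eval (fun j => p j + (0 : ℂ) * v j) (F i) = w i ^ m i := by
      rw [hpw i]
      simp
    rw [h0] at h1
    have h2 := h1.eventually (pow_nhds (w i) (hm i) (Metric.ball_mem_nhds (w i) (half_pos hε)))
    filter_upwards [h2] with t ht
    obtain ⟨w', hw', hw''⟩ := ht
    exact ⟨w', hw', hw''⟩
  have hnz : ∀ᶠ t in 𝓝 (0 : ℂ), ∀ i, eval (fun j => p j + t * v j) (F i) ≠ 0 := by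
    rw [Filter.eventually_all]
    intro i
    have h1 := (hce (F i)).tendsto 0
    exact h1.eventually_ne (by simpa using hPF i)
  obtain ⟨ε', hε', hε''⟩ := Metric.eventually_nhds_iff.1 (hroot.and hnz)
  obtain ⟨z0, hS0, hz0⟩ := hPar.small (ε := min ε' ε) (lt_min hε' hε)
  set t0 := T z0 / S z0 with ht0
  have hSn := norm_pos_iff.2 hS0
  have ht0n : ‖t0‖ < min ε' ε := by
    rw [ht0, norm_div, div_lt_iff₀ hSn]
    exact hz0
  obtain ⟨hy, hnz0⟩ := hε'' (y := t0) (by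
    rw [dist_zero_right]
    exact ht0n.trans_le (min_le_left _ _))
  choose y hy1 hy2 using hy
  have hΘt : eval (Sum.elim (fun j => p j + t0 * v j) y) H ≠ 0 := by
    refine hball (y := (t0, y)) ?_
    rw [Prod.dist_eq, max_lt_iff]
    refine ⟨by rw [dist_zero_right]; exact ht0n.trans_le (min_le_right _ _), ?_⟩
    exact lt_of_le_of_lt ((dist_pi_le_iff (half_pos hε).le).2 fun i => (hy1 i).le)
      (half_lt_self hε)
  have hline : (fun j => S z0 * p j + T z0 * v j) = fun j => S z0 * (p j + t0 * v j) := by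
    funext j
    rw [ht0]
    field_simp
  have hWz : ∀ i, W i z0 ^ m i = (S z0 ^ e i * y i) ^ m i := by
    intro i
    rw [(hW' z0).1 i, hline, eval_scale (hF i), mul_pow, hy2, ← pow_mul, mul_comm (e i)]
  have hWne : ∀ i, W i z0 ≠ 0 := by
    intro i h0
    have h1 := hWz i
    rw [h0, zero_pow (hm i).ne', mul_pow, hy2] at h1
    rcases mul_eq_zero.1 h1.symm with h2 | h2
    · exact pow_ne_zero _ (pow_ne_zero _ hS0) h2
    · exact hnz0 i h2
  set ζ : Fin r → ℂ := fun i => S z0 ^ e i * y i / W i z0 with hζ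
  have hζ1 : ∀ i, ζ i ^ m i = 1 := by
    intro i
    rw [hζ]
    simp only
    rw [div_pow, ← hWz, div_self (pow_ne_zero _ (hWne i))]
  refine ⟨v, hv, S, T, hPar, fun i z => ζ i * W i z, fun i => (hW i).const_mul _, fun z => ?_, z0, ?_⟩
  · refine ⟨?_, fun i => ?_, (hW' z).2.1, (hW' z).2.2⟩
    · intro h0
      obtain ⟨a, b⟩ := hv _ _ h0
      rcases hPar.ne z with h1 | h1
      · exact h1 a
      · exact h1 b
    · simp only
      rw [mul_pow, hζ1, one_mul]
      exact (hW' z).1 i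
  · have e1 : Sum.elim (fun j => S z0 * p j + T z0 * v j) (fun i => ζ i * W i z0) =
        fun j => S z0 ^ (Sum.elim (fun _ => 1) e j : ℕ) *
          Sum.elim (fun j => p j + t0 * v j) y j := by
      funext j
      rcases j with j | j
      · simp only [Sum.elim_inl, pow_one]
        exact congrFun hline j
      · simp only [Sum.elim_inr]
        rw [hζ]
        simp only
        rw [div_mul_cancel₀ _ (hWne j)]
    rw [val, e1, eval_wscale hH]
    exact mul_ne_zero (pow_ne_zero _ hS0) hΘt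

/-- two points of the cone lie over the same point of the weighted projective space -/
def Same {n r : ℕ} (e : Fin r → ℕ) (P Q : (Fin (n + 1) → ℂ) × (Fin r → ℂ)) : Prop :=
  ∃ a : ℂ, a ≠ 0 ∧ (∀ j, Q.1 j = a * P.1 j) ∧ ∀ i, Q.2 i = a ^ e i * P.2 i

/-- `Ξ` is a Zariski closed subset of `X` -/
def IsClosedIn {n r : ℕ} (e : Fin r → ℕ) (X Ξ : Set ((Fin (n + 1) → ℂ) × (Fin r → ℂ))) : Prop :=
  ∃ (κ : Type) (H : κ → MvPolynomial (Fin (n + 1) ⊕ Fin r) ℂ) (D : κ → ℕ),
    (∀ k, IsWeightedHomogeneous (Sum.elim (fun _ => 1) e) (H k) (D k)) ∧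
      Ξ = {P | P ∈ X ∧ ∀ k, val P (H k) = 0}

/-- `X` is irreducible -/
def Irr {n r : ℕ} (e : Fin r → ℕ) (X : Set ((Fin (n + 1) → ℂ) × (Fin r → ℂ))) : Prop :=
  ∀ (H K : MvPolynomial (Fin (n + 1) ⊕ Fin r) ℂ) (D E : ℕ),
    IsWeightedHomogeneous (Sum.elim (fun _ => 1) e) H D →
    IsWeightedHomogeneous (Sum.elim (fun _ => 1) e) K E →
    (∀ P ∈ X, val P H * val P K = 0) → (∀ P ∈ X, val P H = 0) ∨ ∀ P ∈ X, val P K = 0

/-- pseudo Brody hyperbolicity -/
def PseudoBrody {n r : ℕ} (e : Fin r → ℕ) (X : Set ((Fin (n + 1) → ℂ) × (Fin r → ℂ))) : Prop :=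
  ∃ Ξ, IsClosedIn e X Ξ ∧ Ξ ≠ X ∧ ∀ f : ℂ → (Fin (n + 1) → ℂ) × (Fin r → ℂ),
    Differentiable ℂ f → (∀ z, f z ∈ X) → (∃ z z', ¬ Same e (f z) (f z')) → ∀ z, f z ∈ Ξ

/-- pseudo Picard hyperbolicity of `X` with the compactification `Y` -/
def PseudoPicard {n r : ℕ} (e : Fin r → ℕ) (X Y : Set ((Fin (n + 1) → ℂ) × (Fin r → ℂ))) : Prop :=
  ∃ Ξ, IsClosedIn e X Ξ ∧ Ξ ≠ X ∧ ∀ f : ℂ → (Fin (n + 1) → ℂ) × (Fin r → ℂ),
    DifferentiableOn ℂ f (ball 0 1 \ {0}) → (∀ z ∈ ball (0 : ℂ) 1 \ {0}, f z ∈ X) →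
    (∃ z ∈ ball (0 : ℂ) 1 \ {0}, f z ∉ Ξ) →
    ∃ F : ℂ → (Fin (n + 1) → ℂ) × (Fin r → ℂ), DifferentiableOn ℂ F (ball 0 1) ∧
      (∀ z ∈ ball (0 : ℂ) 1, F z ∈ Y) ∧ ∀ z ∈ ball (0 : ℂ) 1 \ {0}, Same e (f z) (F z)

/-- For some proper closed subset `Ξ`, all the curves `X ∩ {x ∈ ℓ}`, `ℓ` a line, are hyperbolic
modulo `Ξ`. -/
def PseudoLine {n r : ℕ} (e : Fin r → ℕ) (X : Set ((Fin (n + 1) → ℂ) × (Fin r → ℂ))) : Prop :=
  ∃ Ξ, IsClosedIn e X Ξ ∧ Ξ ≠ X ∧ ∀ p v : Fin (n + 1) → ℂ, LinearIndependent ℂ ![p, v] →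
    ∀ f : ℂ → (Fin (n + 1) → ℂ) × (Fin r → ℂ),
      Differentiable ℂ f → (∀ z, f z ∈ X) → (∀ z, (f z).1 ∈ Submodule.span ℂ {p, v}) →
      (∃ z z', ¬ Same e (f z) (f z')) → ∀ z, f z ∈ Ξ

theorem exists_point {n r g : ℕ} {m : Fin r → ℕ}
    {F : Fin r → MvPolynomial (Fin (n + 1)) ℂ} {e : Fin r → ℕ}
    (hF : ∀ i, (F i).IsHomogeneous (m i * e i))
    {G : Fin g → MvPolynomial (Fin (n + 1)) ℂ} {B : MvPolynomial (Fin (n + 1)) ℂ}
    (hirr : Irr e (Pts m F G B)) (hFX : ∀ i, ∃ P ∈ Pts m F G B, eval P.1 (F i) ≠ 0)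
    {H : MvPolynomial (Fin (n + 1) ⊕ Fin r) ℂ} {D : ℕ}
    (hH : IsWeightedHomogeneous (Sum.elim (fun _ => 1) e) H D)
    (hP : ∃ P ∈ Pts m F G B, val P H ≠ 0) :
    ∃ P ∈ Pts m F G B, val P H ≠ 0 ∧ ∀ i, eval P.1 (F i) ≠ 0 := by
  classical
  have hren : ∀ i, IsWeightedHomogeneous (Sum.elim (fun _ => 1) e)
      (rename (Sum.inl : Fin (n + 1) → Fin (n + 1) ⊕ Fin r) (F i)) (m i * e i) := by
    intro i s hs
    obtain ⟨u, hu, hcu⟩ := coeff_rename_ne_zero _ _ _ hs
    have h1 := hF i hcu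
    rw [← h1, ← hu, Finsupp.weight_apply, Finsupp.weight_apply,
      Finsupp.sum_mapDomain_index (by simp) (by intros; simp [add_mul])]
    simp
  have hval : ∀ P : (Fin (n + 1) → ℂ) × (Fin r → ℂ), ∀ i,
      val P (rename (Sum.inl : Fin (n + 1) → Fin (n + 1) ⊕ Fin r) (F i)) = eval P.1 (F i) := by
    intro P i
    rw [val, eval_rename]
    rfl
  have key : ∀ s : Finset (Fin r), ∃ (K : MvPolynomial (Fin (n + 1) ⊕ Fin r) ℂ) (E : ℕ),
      IsWeightedHomogeneous (Sum.elim (fun _ => 1) e) K E ∧ (∃ P ∈ Pts m F G B, val P K ≠ 0) ∧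
      ∀ P ∈ Pts m F G B, val P K ≠ 0 → val P H ≠ 0 ∧ ∀ i ∈ s, eval P.1 (F i) ≠ 0 := by
    intro s
    induction s using Finset.induction_on with
    | empty => exact ⟨H, D, hH, hP, fun P _ h => ⟨h, by simp⟩⟩
    | insert i s his ih =>
      obtain ⟨K, E, hK, hPK, hKs⟩ := ih
      have hmul : ∀ P : (Fin (n + 1) → ℂ) × (Fin r → ℂ), val P (K * rename Sum.inl (F i)) =
          val P K * val P (rename Sum.inl (F i)) := fun P => by
        rw [val, map_mul]
        rfl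
      refine ⟨K * rename Sum.inl (F i), E + m i * e i, hK.mul (hren i), ?_, ?_⟩
      · by_contra hcon
        push Not at hcon
        rcases hirr K _ E _ hK (hren i) (fun P hP => by rw [← hmul]; exact hcon P hP) with h | h
        · obtain ⟨P, hP, hP'⟩ := hPK
          exact hP' (h P hP)
        · obtain ⟨P, hP, hP'⟩ := hFX i
          exact hP' (by rw [← hval]; exact h P hP)
      · intro P hP hne
        rw [hmul] at hne
        obtain ⟨h1, h2⟩ := hKs P hP (left_ne_zero_of_mul hne)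
        refine ⟨h1, fun i' hi' => ?_⟩
        rcases Finset.mem_insert.1 hi' with rfl | h
        · rw [← hval]
          exact right_ne_zero_of_mul hne
        · exact h2 i' h
  obtain ⟨K, E, -, ⟨P, hP, hPK⟩, hKs⟩ := key Finset.univ
  obtain ⟨h1, h2⟩ := hKs P hP hPK
  exact ⟨P, hP, h1, fun i => h2 i (Finset.mem_univ i)⟩

/-- the main construction -/
theorem exists_curve {n r g : ℕ} {m : Fin r → ℕ} (hm : ∀ i, 2 ≤ m i)
    {F : Fin r → MvPolynomial (Fin (n + 1)) ℂ} {e : Fin r → ℕ} (he : ∀ i, 0 < e i)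
    (hF : ∀ i, (F i).IsHomogeneous (m i * e i))
    {G : Fin g → MvPolynomial (Fin (n + 1)) ℂ} {d : Fin g → ℕ} (hG : ∀ i, (G i).IsHomogeneous (d i))
    {B : MvPolynomial (Fin (n + 1)) ℂ} {δ : ℕ} (hB : B.IsHomogeneous δ)
    (hK : ∑ i, (m i - 1) * e i + δ + ∑ j, d j ≤ n + 1)
    (h0 : δ = 0 → ∑ i, (m i - 1) * e i + ∑ j, d j = n + 1 →
      (∃ i, 3 ∣ m i ∨ 4 ∣ m i) ∨ 2 ≤ ∑ i with 2 ∣ m i, e i)
    (h0' : δ = 0 → ∑ i, (m i - 1) * e i + ∑ j, d j = n → 0 < r)
    (h1 : δ = 1 → ∑ i, (m i - 1) * e i + ∑ j, d j = n → ∃ i, 2 ∣ m i)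
    (hirr : Irr e (Pts m F G B)) (hFX : ∀ i, ∃ P ∈ Pts m F G B, eval P.1 (F i) ≠ 0)
    {Ξ : Set ((Fin (n + 1) → ℂ) × (Fin r → ℂ))} (hΞ : IsClosedIn e (Pts m F G B) Ξ)
    (hne : Ξ ≠ Pts m F G B) :
    ∃ p v : Fin (n + 1) → ℂ, (∀ a b : ℂ, (fun j => a * p j + b * v j) = 0 → a = 0 ∧ b = 0) ∧
      ∃ S T : ℂ → ℂ, Par S T ∧ ∃ W : Fin r → ℂ → ℂ, (∀ i, Differentiable ℂ (W i)) ∧
        (∀ z, ((fun j => S z * p j + T z * v j, fun i => W i z) :
          (Fin (n + 1) → ℂ) × (Fin r → ℂ)) ∈ Pts m F G B) ∧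
        ∃ z, z ≠ 0 ∧ ((fun j => S z * p j + T z * v j, fun i => W i z) :
          (Fin (n + 1) → ℂ) × (Fin r → ℂ)) ∉ Ξ := by
  obtain ⟨κ, H, D, hH, rfl⟩ := hΞ
  obtain ⟨k, P, hP, hPk⟩ : ∃ k, ∃ P ∈ Pts m F G B, val P (H k) ≠ 0 := by
    by_contra hcon
    push Not at hcon
    apply hne
    ext P
    exact ⟨fun h => h.1, fun h => ⟨h, fun k => hcon k P h⟩⟩
  obtain ⟨P, hP, hPk, hPF⟩ := exists_point hF hirr hFX (hH k) ⟨P, hP, hPk⟩
  have L := line_curve m hm F e hF G d hG B δ hB P.1 hP.1 hPF hP.2.2.1 hP.2.2.2 he hK h0 h0' h1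
  obtain ⟨v, hv, S, T, hPar, W, hW, hX, z, hz⟩ :=
    curve_off (fun i => by have := hm i; omega) hF hP hPF L (hH k) hPk
  refine ⟨P.1, v, hv, S, T, hPar, W, hW, hX, ?_⟩
  -- a nonzero parameter
  have hcont : Continuous fun z => val ((fun j => S z * P.1 j + T z * v j, fun i => W i z) :
      (Fin (n + 1) → ℂ) × (Fin r → ℂ)) (H k) := by
    refine (MvPolynomial.continuous_eval (H k)).comp ?_
    rw [continuous_pi_iff]
    have hS := hPar.hS.continuous
    have hT := hPar.hT.continuous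
    rintro (j | j)
    · simp only [Sum.elim_inl]
      fun_prop
    · simp only [Sum.elim_inr]
      exact (hW j).continuous
  have h2 : ∀ᶠ y in 𝓝[≠] z, val ((fun j => S y * P.1 j + T y * v j, fun i => W i y) :
      (Fin (n + 1) → ℂ) × (Fin r → ℂ)) (H k) ≠ 0 :=
    ((hcont.tendsto z).eventually_ne hz).filter_mono nhdsWithin_le_nhds
  have h3 : ∀ᶠ y in 𝓝[≠] z, y ≠ 0 := by
    by_cases hz0 : z = 0
    · subst hz0
      exact self_mem_nhdsWithin
    · exact (eventually_ne_nhds hz0).filter_mono nhdsWithin_le_nhds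
  obtain ⟨y, hy, hy0⟩ := (h2.and h3).exists
  exact ⟨y, hy0, fun h => hy (h.2 k)⟩

/-- the points of the curve are different -/
theorem not_same {n r : ℕ} {e : Fin r → ℕ} {p v : Fin (n + 1) → ℂ}
    (hv : ∀ a b : ℂ, (fun j => a * p j + b * v j) = 0 → a = 0 ∧ b = 0) {S T S' T' : ℂ}
    {w w' : Fin r → ℂ}
    (h : Same e ((fun j => S * p j + T * v j, w) : (Fin (n + 1) → ℂ) × (Fin r → ℂ))
      (fun j => S' * p j + T' * v j, w')) : S * T' = S' * T := by
  obtain ⟨a, -, h, -⟩ := h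
  obtain ⟨h1, h2⟩ := hv (S' - a * S) (T' - a * T) (by
    funext j
    have := h j
    simp only at this
    simp only [Pi.zero_apply]
    linear_combination this)
  linear_combination -T * h1 + S * h2

theorem differentiable_curve {n r : ℕ} {S T : ℂ → ℂ} (hPar : Par S T) {W : Fin r → ℂ → ℂ}
    (hW : ∀ i, Differentiable ℂ (W i)) (p v : Fin (n + 1) → ℂ) :
    Differentiable ℂ fun z => ((fun j => S z * p j + T z * v j, fun i => W i z) :
      (Fin (n + 1) → ℂ) × (Fin r → ℂ)) := by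
  refine Differentiable.prodMk ?_ ?_
  · rw [differentiable_pi]
    exact fun j => (hPar.hS.mul_const _).add (hPar.hT.mul_const _)
  · rw [differentiable_pi]
    exact hW

theorem linearIndependent_of {n : ℕ} {p v : Fin (n + 1) → ℂ}
    (hv : ∀ a b : ℂ, (fun j => a * p j + b * v j) = 0 → a = 0 ∧ b = 0) :
    LinearIndependent ℂ ![p, v] := by
  rw [LinearIndependent.pair_iff]
  intro a b h
  exact hv a b h

/-- the failure of the extension property -/
theorem no_extension {n r : ℕ} {e : Fin r → ℕ} {p v : Fin (n + 1) → ℂ}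
    (hv : ∀ a b : ℂ, (fun j => a * p j + b * v j) = 0 → a = 0 ∧ b = 0) {S T : ℂ → ℂ}
    (hPar : Par S T) (W : Fin r → ℂ → ℂ) (F : ℂ → (Fin (n + 1) → ℂ) × (Fin r → ℂ))
    (hF : ContinuousAt F 0) (hF0 : (F 0).1 ≠ 0)
    (hs : ∀ z ∈ ball (0 : ℂ) 1 \ {0}, Same e ((fun j => S (Complex.exp (1 / z)) * p j +
      T (Complex.exp (1 / z)) * v j, fun i => W i (Complex.exp (1 / z))) :
      (Fin (n + 1) → ℂ) × (Fin r → ℂ)) (F z)) : False := by
  -- the sequences tending to `0`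
  have hmin : ∀ a : ℂ, ∀ j l, (F 0).1 j * (S (Complex.exp a) * p l + T (Complex.exp a) * v l) =
      (F 0).1 l * (S (Complex.exp a) * p j + T (Complex.exp a) * v j) := by
    intro a j l
    have ht : Tendsto (fun k : ℕ => (a + k * (2 * Real.pi * Complex.I))) atTop
        (Bornology.cobounded ℂ) := by
      rw [← tendsto_norm_atTop_iff_cobounded]
      have h1 : Tendsto (fun k : ℕ => (k : ℝ) * (2 * Real.pi) - ‖a‖) atTop atTop :=
        tendsto_atTop_add_const_right _ _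
          (tendsto_natCast_atTop_atTop.atTop_mul_const (by positivity))
      refine tendsto_atTop_mono (fun k => ?_) h1
      have h2 : ‖(k : ℂ) * (2 * Real.pi * Complex.I)‖ = (k : ℝ) * (2 * Real.pi) := by
        rw [norm_mul, norm_mul, norm_mul, Complex.norm_I, Complex.norm_natCast, Complex.norm_real,
          Real.norm_eq_abs, abs_of_pos Real.pi_pos]
        norm_num
      have h3 := norm_sub_norm_le ((k : ℂ) * (2 * Real.pi * Complex.I)) (-a)
      rw [norm_neg, sub_neg_eq_add, h2, add_comm ((k : ℂ) * _)] at h3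
      exact h3
    have hinv : Tendsto (fun k : ℕ => (a + k * (2 * Real.pi * Complex.I))⁻¹) atTop (𝓝 0) :=
      tendsto_inv₀_cobounded.comp ht
    have hexp : ∀ k : ℕ, Complex.exp (1 / (a + k * (2 * Real.pi * Complex.I))⁻¹) =
        Complex.exp a := by
      intro k
      rw [one_div, inv_inv, Complex.exp_add, Complex.exp_nat_mul_two_pi_mul_I, mul_one]
    have hmem : ∀ᶠ k : ℕ in atTop, (a + k * (2 * Real.pi * Complex.I))⁻¹ ∈
        ball (0 : ℂ) 1 \ {0} := by
      have h1 := hinv.eventually (Metric.ball_mem_nhds (0 : ℂ) one_pos)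
      have h2 : ∀ᶠ k : ℕ in atTop, a + k * (2 * Real.pi * Complex.I) ≠ 0 := by
        have hb : ({0}ᶜ : Set ℂ) ∈ Bornology.cobounded ℂ :=
          Bornology.isBounded_def.1 Bornology.isBounded_singleton
        have := ht.eventually hb
        filter_upwards [this] with k hk h0
        exact hk h0
      filter_upwards [h1, h2] with k hk1 hk2
      exact ⟨hk1, inv_ne_zero hk2⟩
    have hlim : Tendsto (fun k : ℕ => F ((a + k * (2 * Real.pi * Complex.I))⁻¹)) atTop
        (𝓝 (F 0)) := hF.tendsto.comp hinv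
    have hl : ∀ j, Tendsto (fun k : ℕ => (F ((a + k * (2 * Real.pi * Complex.I))⁻¹)).1 j) atTop
        (𝓝 ((F 0).1 j)) := fun j =>
      (((continuous_apply j).comp continuous_fst).tendsto _).comp hlim
    have e1 := (hl j).mul_const (S (Complex.exp a) * p l + T (Complex.exp a) * v l)
    have e2 := (hl l).mul_const (S (Complex.exp a) * p j + T (Complex.exp a) * v j)
    refine tendsto_nhds_unique (e1.congr' ?_) e2
    filter_upwards [hmem] with k hk
    obtain ⟨b, -, hb, -⟩ := hs _ hk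
    rw [hexp] at hb
    rw [hb j, hb l]
    ring
  obtain ⟨j0, hj0⟩ : ∃ j, (F 0).1 j ≠ 0 := by
    by_contra hcon
    push Not at hcon
    exact hF0 (funext hcon)
  have hprop : ∀ a a' : ℂ, S (Complex.exp a) * T (Complex.exp a') =
      S (Complex.exp a') * T (Complex.exp a) := by
    intro a a'
    set x : Fin (n + 1) → ℂ := fun l => S (Complex.exp a) * p l + T (Complex.exp a) * v l with hx
    set x' : Fin (n + 1) → ℂ := fun l => S (Complex.exp a') * p l + T (Complex.exp a') * v l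
      with hx'
    have h1 : ∀ l, (F 0).1 j0 * x l = (F 0).1 l * x j0 := fun l => hmin a j0 l
    have h1' : ∀ l, (F 0).1 j0 * x' l = (F 0).1 l * x' j0 := fun l => hmin a' j0 l
    obtain ⟨k1, k2⟩ := hv (x' j0 * S (Complex.exp a) - x j0 * S (Complex.exp a'))
      (x' j0 * T (Complex.exp a) - x j0 * T (Complex.exp a')) (by
      funext l
      have e1 : (F 0).1 j0 * (x' j0 * x l - x j0 * x' l) = 0 := by
        linear_combination (x' j0) * h1 l - (x j0) * h1' l
      have e2 := (mul_eq_zero.1 e1).resolve_left hj0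
      simp only [Pi.zero_apply]
      rw [← e2, hx, hx']
      ring)
    have hx0 : x j0 ≠ 0 := by
      intro h0
      have h2 : ∀ l, x l = 0 := by
        intro l
        have := h1 l
        rw [h0, mul_zero] at this
        exact (mul_eq_zero.1 this).resolve_left hj0
      obtain ⟨c1, c2⟩ := hv _ _ (funext h2)
      rcases hPar.ne (Complex.exp a) with h3 | h3
      · exact h3 c1
      · exact h3 c2
    have e3 : x j0 * (S (Complex.exp a) * T (Complex.exp a') -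
        S (Complex.exp a') * T (Complex.exp a)) = 0 := by
      linear_combination T (Complex.exp a) * k1 - S (Complex.exp a) * k2
    exact sub_eq_zero.1 ((mul_eq_zero.1 e3).resolve_left hx0)
  have hprop2 : ∀ z z', z ≠ 0 → z' ≠ 0 → S z * T z' = S z' * T z := by
    intro z z' hz hz'
    have := hprop (Complex.log z) (Complex.log z')
    rwa [Complex.exp_log hz, Complex.exp_log hz'] at this
  have hclosed : ∀ z z', S z * T z' = S z' * T z := by
    have hS := hPar.hS.continuous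
    have hT := hPar.hT.continuous
    have h1 : ∀ z z', z ≠ 0 → S z * T z' = S z' * T z := by
      intro z z' hz
      by_cases hz' : z' = 0
      · subst hz'
        have a1 : Continuous fun y => S z * T y := by fun_prop
        have a2 : Continuous fun y => S y * T z := by fun_prop
        have h4 : (fun y => S z * T y) =ᶠ[𝓝[≠] 0] fun y => S y * T z := by
          filter_upwards [self_mem_nhdsWithin] with y hy
          exact hprop2 z y hz hy
        exact tendsto_nhds_unique (((a1.tendsto 0).mono_left nhdsWithin_le_nhds).congr' h4)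
          ((a2.tendsto 0).mono_left nhdsWithin_le_nhds)
      · exact hprop2 z z' hz hz'
    intro z z'
    by_cases hz : z = 0
    · by_cases hz' : z' = 0
      · rw [hz, hz']
      · exact (h1 z' z hz').symm
    · exact h1 z z' hz
  obtain ⟨z, z', hz⟩ := hPar.nc
  exact hz (hclosed z z')

/-- All the hyperbolicity properties fail. -/
theorem main {n r g : ℕ} {m : Fin r → ℕ} (hm : ∀ i, 2 ≤ m i)
    {F : Fin r → MvPolynomial (Fin (n + 1)) ℂ} {e : Fin r → ℕ} (he : ∀ i, 0 < e i)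
    (hF : ∀ i, (F i).IsHomogeneous (m i * e i))
    {G : Fin g → MvPolynomial (Fin (n + 1)) ℂ} {d : Fin g → ℕ} (hG : ∀ i, (G i).IsHomogeneous (d i))
    {B : MvPolynomial (Fin (n + 1)) ℂ} {δ : ℕ} (hB : B.IsHomogeneous δ)
    (hK : ∑ i, (m i - 1) * e i + δ + ∑ j, d j ≤ n + 1)
    (h0 : δ = 0 → ∑ i, (m i - 1) * e i + ∑ j, d j = n + 1 →
      (∃ i, 3 ∣ m i ∨ 4 ∣ m i) ∨ 2 ≤ ∑ i with 2 ∣ m i, e i)
    (h0' : δ = 0 → ∑ i, (m i - 1) * e i + ∑ j, d j = n → 0 < r)
    (h1 : δ = 1 → ∑ i, (m i - 1) * e i + ∑ j, d j = n → ∃ i, 2 ∣ m i)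
    (hirr : Irr e (Pts m F G B)) (hFX : ∀ i, ∃ P ∈ Pts m F G B, eval P.1 (F i) ≠ 0) :
    ¬ PseudoBrody e (Pts m F G B) ∧ ¬ PseudoPicard e (Pts m F G B) (Pts m F G 1) ∧
      ¬ PseudoLine e (Pts m F G B) := by
  refine ⟨?_, ?_, ?_⟩
  · rintro ⟨Ξ, hΞ, hne, hf⟩
    obtain ⟨p, v, hv, S, T, hPar, W, hW, hX, y, -, hy⟩ :=
      exists_curve hm he hF hG hB hK h0 h0' h1 hirr hFX hΞ hne
    obtain ⟨z, z', hz⟩ := hPar.nc
    exact hy (hf _ (differentiable_curve hPar hW p v) hX ⟨z, z', fun h => hz (not_same hv h)⟩ y)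
  · rintro ⟨Ξ, hΞ, hne, hf⟩
    obtain ⟨p, v, hv, S, T, hPar, W, hW, hX, y, hy0, hy⟩ :=
      exists_curve hm he hF hG hB hK h0 h0' h1 hirr hFX hΞ hne
    -- a parameter over `y`
    obtain ⟨z0, hz0, hz0'⟩ : ∃ z ∈ ball (0 : ℂ) 1 \ {0}, Complex.exp (1 / z) = y := by
      obtain ⟨k, hk⟩ : ∃ k : ℕ, 1 + ‖Complex.log y‖ < (k : ℝ) * (2 * Real.pi) := by
        obtain ⟨k, hk⟩ := exists_nat_gt (1 + ‖Complex.log y‖)
        refine ⟨k, hk.trans_le ?_⟩
        have := Real.pi_gt_three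
        have hk0 : (0 : ℝ) ≤ k := Nat.cast_nonneg k
        nlinarith
      have h2 : ‖(k : ℂ) * (2 * Real.pi * Complex.I)‖ = (k : ℝ) * (2 * Real.pi) := by
        rw [norm_mul, norm_mul, norm_mul, Complex.norm_I, Complex.norm_natCast, Complex.norm_real,
          Real.norm_eq_abs, abs_of_pos Real.pi_pos]
        norm_num
      have h3 := norm_sub_norm_le ((k : ℂ) * (2 * Real.pi * Complex.I)) (-Complex.log y)
      rw [norm_neg, sub_neg_eq_add, h2, add_comm ((k : ℂ) * _)] at h3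
      have h4 : 1 < ‖Complex.log y + (k : ℂ) * (2 * Real.pi * Complex.I)‖ := by linarith
      refine ⟨(Complex.log y + (k : ℂ) * (2 * Real.pi * Complex.I))⁻¹, ⟨?_, ?_⟩, ?_⟩
      · rw [mem_ball, dist_zero_right, norm_inv]
        exact inv_lt_one_of_one_lt₀ h4
      · rw [Set.mem_singleton_iff, inv_eq_zero]
        intro h5
        rw [h5, norm_zero] at h4
        linarith
      · rw [one_div, inv_inv, Complex.exp_add, Complex.exp_nat_mul_two_pi_mul_I, mul_one,
          Complex.exp_log hy0]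
    obtain ⟨Φ, hΦ, hΦY, hΦs⟩ := hf (fun z => ((fun j => S (Complex.exp (1 / z)) * p j +
        T (Complex.exp (1 / z)) * v j, fun i => W i (Complex.exp (1 / z))) :
        (Fin (n + 1) → ℂ) × (Fin r → ℂ))) (by
      intro z hz
      have hz' : z ≠ 0 := hz.2
      have h1 : DifferentiableAt ℂ (fun z : ℂ => Complex.exp (1 / z)) z := by
        have : DifferentiableAt ℂ (fun z : ℂ => 1 / z) z :=
          (differentiableAt_const _).div differentiableAt_id hz'
        exact this.cexp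
      exact ((differentiable_curve hPar hW p v (Complex.exp (1 / z))).comp z
        h1).differentiableWithinAt) (fun z _ => hX _) ⟨z0, hz0, by rw [hz0']; exact hy⟩
    have hc : ContinuousAt Φ 0 :=
      (hΦ.differentiableAt (ball_mem_nhds (0 : ℂ) one_pos)).continuousAt
    exact no_extension hv hPar W Φ hc (hΦY 0 (mem_ball_self one_pos)).1 hΦs
  · rintro ⟨Ξ, hΞ, hne, hf⟩
    obtain ⟨p, v, hv, S, T, hPar, W, hW, hX, y, -, hy⟩ :=
      exists_curve hm he hF hG hB hK h0 h0' h1 hirr hFX hΞ hne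
    obtain ⟨z, z', hz⟩ := hPar.nc
    refine hy (hf p v (linearIndependent_of hv) _ (differentiable_curve hPar hW p v) hX
      (fun z => ?_) ⟨z, z', fun h => hz (not_same hv h)⟩ y)
    rw [Submodule.mem_span_pair]
    exact ⟨S z, T z, rfl⟩

end Pool.Agent.W600.Ell
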