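import Pool.Agent.W600.Ell.Cover

/-!
# Existence of entire curves: the cases
-/

set_option autoImplicit false

namespace Pool.Agent.W600.Ell

open MvPolynomial Pool.Agent.H734R3.LV Filter Topology

/-- the simplest curve -/
theorem par_const (c : ℂ) : ∃ S T, Par S T ∧ ∀ z, S z + c * T z = 1 := by
  refine ⟨fun z => 1 - c * z, fun z => z, ⟨by fun_prop, by fun_prop, fun z => ?_, 1, 0, ?_⟩,
    fun z => by ring⟩
  · by_cases hz : z = 0
    · left; simp [hz]
    · right; exact hz
  · simp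

theorem Par.lin {S T : ℂ → ℂ} (h : Par S T) (c : ℂ) : Differentiable ℂ fun z => S z + c * T z :=
  h.hS.add (h.hT.const_mul c)

theorem par_two (a b : ℂ) : ∃ S T, Par S T ∧ (∀ z, S z + a * T z ≠ 0) ∧
    ∀ z, S z + b * T z ≠ 0 := by
  by_cases h : a = b
  · subst h
    obtain ⟨S, T, hP, hc⟩ := par_const a
    exact ⟨S, T, hP, fun z => by rw [hc]; exact one_ne_zero, fun z => by rw [hc]; exact one_ne_zero⟩
  · have h' := sub_ne_zero.2 h
    obtain ⟨S, T, hP, hST⟩ := par_of (A := Complex.exp) (B := fun _ => 1) Complex.differentiable_exp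
      (by fun_prop) (fun z => Or.inl (Complex.exp_ne_zero z))
      ⟨0, Real.pi * Complex.I, by
        rw [Complex.exp_zero, Complex.exp_pi_mul_I]
        norm_num⟩ h
    refine ⟨S, T, hP, fun z => ?_, fun z => ?_⟩
    · have : S z + a * T z = Complex.exp z := by
        rw [hST]
        field_simp
        ring
      rw [this]
      exact Complex.exp_ne_zero z
    · have : S z + b * T z = 1 := by
        rw [hST]
        field_simp
        ring
      rw [this]
      exact one_ne_zero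

/-- one omitted point and a double cover -/
theorem par_half (c c' γ : ℂ) : ∃ S T, Par S T ∧ (∀ z, S z + γ * T z ≠ 0) ∧
    ∃ y : ℂ → ℂ, Differentiable ℂ y ∧ ∀ z, y z ^ 2 = (S z + c * T z) * (S z + c' * T z) := by
  by_cases h : c = c'
  · subst h
    obtain ⟨S, T, hP, hc⟩ := par_const γ
    exact ⟨S, T, hP, fun z => by rw [hc]; exact one_ne_zero, _, hP.lin c, fun z => sq _⟩
  have h' := sub_ne_zero.2 h
  by_cases h1 : γ = c
  · subst h1
    obtain ⟨S, T, hP, hST⟩ := par_of (A := fun _ => 1) (B := fun z => z ^ 2) (by fun_prop)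
      (by fun_prop) (fun z => Or.inl one_ne_zero) ⟨1, 0, by norm_num⟩ h
    have e1 : ∀ z, S z + γ * T z = 1 := fun z => by
      rw [hST]
      field_simp
      ring
    have e2 : ∀ z, S z + c' * T z = z ^ 2 := fun z => by
      rw [hST]
      field_simp
      ring
    exact ⟨S, T, hP, fun z => by rw [e1]; exact one_ne_zero, fun z => z, by fun_prop,
      fun z => by rw [e1, e2, one_mul]⟩
  by_cases h2 : γ = c'
  · subst h2
    obtain ⟨S, T, hP, hST⟩ := par_of (A := fun _ => 1) (B := fun z => z ^ 2) (by fun_prop)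
      (by fun_prop) (fun z => Or.inl one_ne_zero) ⟨1, 0, by norm_num⟩ (Ne.symm h)
    have h'' := sub_ne_zero.2 (Ne.symm h)
    have e1 : ∀ z, S z + γ * T z = 1 := fun z => by
      rw [hST]
      field_simp
      ring
    have e2 : ∀ z, S z + c * T z = z ^ 2 := fun z => by
      rw [hST]
      field_simp
      ring
    exact ⟨S, T, hP, fun z => by rw [e1]; exact one_ne_zero, fun z => z, by fun_prop,
      fun z => by rw [e1, e2, mul_one]⟩
  have k1 : c - γ ≠ 0 := sub_ne_zero.2 (Ne.symm h1)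
  have k2 : c' - γ ≠ 0 := sub_ne_zero.2 (Ne.symm h2)
  let hh : ℂ → ℂ := fun z => (1 + Complex.exp z) / 2
  let gg : ℂ → ℂ := fun z => (Complex.exp z - 1) / 2
  have dh : Differentiable ℂ hh := by fun_prop
  have dg : Differentiable ℂ gg := by fun_prop
  have hne : ∀ z, hh z ≠ 0 ∨ gg z ≠ 0 := by
    intro z
    by_contra hcon
    push Not at hcon
    have : hh z - gg z = 1 := by
      simp only [hh, gg]
      ring
    rw [hcon.1, hcon.2] at this
    norm_num at this
  obtain ⟨S, T, hP, hST⟩ := par_of (A := fun z => (c - γ) * hh z ^ 2)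
    (B := fun z => (c' - γ) * gg z ^ 2) ((dh.pow 2).const_mul _) ((dg.pow 2).const_mul _)
    (fun z => (hne z).imp (fun h => mul_ne_zero k1 (pow_ne_zero 2 h))
      (fun h => mul_ne_zero k2 (pow_ne_zero 2 h)))
    (nonprop (z := Real.pi * Complex.I) (by simp [gg]) (by
      simp only [gg, Complex.exp_pi_mul_I]
      exact mul_ne_zero k2 (by norm_num)) (by
      simp only [hh, Complex.exp_zero]
      exact mul_ne_zero k1 (by norm_num))) h
  obtain ⟨ρ, hρ⟩ := IsAlgClosed.exists_pow_nat_eq ((c - γ) * (c' - γ)) two_pos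
  refine ⟨S, T, hP, fun z => ?_, fun z => ρ * (hh z * gg z), (dh.mul dg).const_mul _, fun z => ?_⟩
  · have : S z + γ * T z = (γ - c') * (c - γ) / (c - c') * Complex.exp z := by
      have e0 : hh z ^ 2 - gg z ^ 2 = Complex.exp z := by
        simp only [hh, gg]
        ring
      rw [hST, ← e0]
      field_simp
      ring
    rw [this]
    refine mul_ne_zero (div_ne_zero (mul_ne_zero ?_ k1) h') (Complex.exp_ne_zero z)
    rw [← neg_ne_zero, neg_sub]
    exact k2
  · have e1 : S z + c * T z = (c - γ) * hh z ^ 2 := by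
      rw [hST]
      field_simp
      ring
    have e2 : S z + c' * T z = (c' - γ) * gg z ^ 2 := by
      rw [hST]
      field_simp
      ring
    rw [e1, e2, mul_pow, hρ]
    ring

/-- a cyclic cover ramified over two points -/
theorem par_rat (c c' : ℂ) {m : ℕ} (hm : 2 ≤ m) : ∃ S T, Par S T ∧
    ∃ y : ℂ → ℂ, Differentiable ℂ y ∧
      ∀ z, y z ^ m = (S z + c * T z) ^ (m - 1) * (S z + c' * T z) := by
  by_cases h : c = c'
  · subst h
    obtain ⟨S, T, hP, hc⟩ := par_const c
    refine ⟨S, T, hP, _, hP.lin c, fun z => ?_⟩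
    rw [← pow_succ]
    congr 1
    omega
  have h' := sub_ne_zero.2 h
  obtain ⟨S, T, hP, hST⟩ := par_of (A := fun _ => 1) (B := fun z => z ^ m) (by fun_prop)
    (by fun_prop) (fun z => Or.inl one_ne_zero) ⟨1, 0, by
      have : m ≠ 0 := by omega
      simp [this]⟩ h
  have e1 : ∀ z, S z + c * T z = 1 := fun z => by
    rw [hST]
    field_simp
    ring
  have e2 : ∀ z, S z + c' * T z = z ^ m := fun z => by
    rw [hST]
    field_simp
    ring
  exact ⟨S, T, hP, fun z => z, by fun_prop, fun z => by rw [e1, e2, one_pow, one_mul]⟩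

section

variable {n r g : ℕ} (m : Fin r → ℕ) (hm : ∀ i, 2 ≤ m i)
    (F : Fin r → MvPolynomial (Fin (n + 1)) ℂ) (e : Fin r → ℕ)
    (hF : ∀ i, (F i).IsHomogeneous (m i * e i))
    (G : Fin g → MvPolynomial (Fin (n + 1)) ℂ) (d : Fin g → ℕ) (hG : ∀ i, (G i).IsHomogeneous (d i))
    (B : MvPolynomial (Fin (n + 1)) ℂ) (δ : ℕ) (hB : B.IsHomogeneous δ)
    (p : Fin (n + 1) → ℂ) (hp0 : p ≠ 0) (hpF : ∀ i, eval p (F i) ≠ 0) (hpG : ∀ i, eval p (G i) = 0)
    (hpB : eval p B ≠ 0)

include hm hF hG hB hp0 hpF hpG hpB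

/-- two boundary points -/
theorem case_B2 (hδ : 2 ≤ δ) (hK : ∑ i, (m i - 1) * e i + δ + ∑ j, d j ≤ n + 1) :
    LineCurve m F G B p := by
  refine of_pattern (q := 0) (β := 2) m (fun i => by have := hm i; omega) F e hF G d hG B δ hB
    Fin.elim0 (Sum.elim (fun j => m j.1) Fin.elim0) ![1, δ - 1] ?_ ?_ (by omega) ?_ ?_ ?_
    p hp0 hpF hpG hpB
  · rintro (j | j)
    · have := hm j.1
      simp only [Sum.elim_inl]
      omega
    · exact j.elim0
  · intro s
    fin_cases s
    · simp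
    · simp
      omega
  · intro j
    simp
  · simp
    omega
  · intro c cB
    obtain ⟨S, T, hP, h1, h2⟩ := par_two (cB 0) (cB 1)
    refine ⟨S, T, hP, fun a => ?_, fun j => ⟨_, hP.lin (c (Sum.inl j)), fun z => by simp⟩⟩
    fin_cases a
    exacts [h1, h2]

/-- one boundary point -/
theorem case_B1 (hδ : 1 ≤ δ) (hK : ∑ i, (m i - 1) * e i + δ + ∑ j, d j ≤ n) :
    LineCurve m F G B p := by
  refine of_pattern (q := 0) (β := 1) m (fun i => by have := hm i; omega) F e hF G d hG B δ hB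
    Fin.elim0 (Sum.elim (fun j => m j.1) Fin.elim0) ![δ] ?_ ?_ (by omega) ?_ ?_ ?_
    p hp0 hpF hpG hpB
  · rintro (j | j)
    · have := hm j.1
      simp only [Sum.elim_inl]
      omega
    · exact j.elim0
  · intro s
    fin_cases s
    simp
    omega
  · intro j
    simp
  · simp
  · intro c cB
    obtain ⟨S, T, hP, h1⟩ := par_const (cB 0)
    refine ⟨S, T, hP, fun a z => ?_, fun j => ⟨_, hP.lin (c (Sum.inl j)), fun z => by simp⟩⟩
    fin_cases a
    simp only [Fin.zero_eta]
    rw [h1]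
    exact one_ne_zero

/-- no boundary, no extra root -/
theorem case_0 (hδ : δ = 0) (hK : ∑ i, (m i - 1) * e i + ∑ j, d j < n) :
    LineCurve m F G B p := by
  refine of_pattern (q := 0) (β := 0) m (fun i => by have := hm i; omega) F e hF G d hG B δ hB
    Fin.elim0 (Sum.elim (fun j => m j.1) Fin.elim0) Fin.elim0 ?_ (fun s => s.elim0) (by omega)
    ?_ ?_ ?_ p hp0 hpF hpG hpB
  · rintro (j | j)
    · have := hm j.1
      simp only [Sum.elim_inl]
      omega
    · exact j.elim0
  · intro j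
    simp
  · simp [hδ]
  · intro c cB
    obtain ⟨S, T, hP, h1⟩ := par_const 0
    exact ⟨S, T, hP, fun a => a.elim0, fun j => ⟨_, hP.lin (c (Sum.inl j)), fun z => by simp⟩⟩

/-- no boundary, one extra root -/
theorem case_0' (hδ : δ = 0) (hK : ∑ i, (m i - 1) * e i + ∑ j, d j ≤ n)
    (b : Σ i : Fin r, Fin (e i)) : LineCurve m F G B p := by
  classical
  have hb0 := hm b.1
  refine of_pattern (q := 1) (β := 0) m (fun i => by have := hm i; omega) F e hF G d hG B δ hB
    ![b] (Sum.elim (fun j => if j = b then m b.1 - 1 else m j.1) ![1]) Fin.elim0 ?_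
    (fun s => s.elim0) (by omega) ?_ (by simp [hδ]) ?_ p hp0 hpF hpG hpB
  · rintro (j | j)
    · simp only [Sum.elim_inl]
      have := hm j.1
      split_ifs <;> omega
    · fin_cases j
      simp
  · intro j
    by_cases hj : b = j
    · subst hj
      simp
      omega
    · have hj' : ¬ j = b := fun h => hj h.symm
      simp [hj, hj']
  · intro c cB
    obtain ⟨S, T, hP, y, hy, hy'⟩ := par_rat (c (Sum.inl b)) (c (Sum.inr 0)) (hm b.1)
    refine ⟨S, T, hP, fun a => a.elim0, fun j => ?_⟩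
    by_cases hj : b = j
    · subst hj
      exact ⟨y, hy, fun z => by simp [hy']⟩
    · have hj' : ¬ j = b := fun h => hj h.symm
      exact ⟨_, hP.lin (c (Sum.inl j)), fun z => by simp [hj, hj']⟩

/-- one boundary point and one extra root -/
theorem case_B1' (hδ : δ = 1) (hK : ∑ i, (m i - 1) * e i + δ + ∑ j, d j ≤ n + 1)
    (b : Σ i : Fin r, Fin (e i)) (μ : ℕ) (hμ : m b.1 = 2 * μ) : LineCurve m F G B p := by
  classical
  have hb0 := hm b.1
  refine of_pattern (q := 1) (β := 1) m (fun i => by have := hm i; omega) F e hF G d hG B δ hB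
    ![b] (Sum.elim (fun j => if j = b then μ else m j.1) ![μ]) ![1] ?_
    (fun s => by fin_cases s; simp) (by omega) ?_ (by simp [hδ]) ?_ p hp0 hpF hpG hpB
  · rintro (j | j)
    · simp only [Sum.elim_inl]
      have := hm j.1
      split_ifs <;> omega
    · fin_cases j
      simp
      omega
  · intro j
    by_cases hj : b = j
    · subst hj
      simp
      omega
    · have hj' : ¬ j = b := fun h => hj h.symm
      simp [hj, hj']
  · intro c cB
    obtain ⟨S, T, hP, hU, y, hy, hy'⟩ := par_half (c (Sum.inl b)) (c (Sum.inr 0)) (cB 0)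
    refine ⟨S, T, hP, fun a z => ?_, fun j => ?_⟩
    · fin_cases a
      exact hU z
    by_cases hj : b = j
    · subst hj
      refine ⟨y, hy, fun z => ?_⟩
      rw [hμ, pow_mul, hy', mul_pow]
      simp
    · have hj' : ¬ j = b := fun h => hj h.symm
      exact ⟨_, hP.lin (c (Sum.inl j)), fun z => by simp [hj, hj']⟩

/-- types `(3,3,3)` and `(2,4,4)` -/
theorem case_triple (hδ : δ = 0) (hK : ∑ i, (m i - 1) * e i + ∑ j, d j ≤ n + 1)
    (b : Σ i : Fin r, Fin (e i)) (h : 3 ∣ m b.1 ∨ 4 ∣ m b.1) : LineCurve m F G B p := by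
  classical
  have hb0 := hm b.1
  obtain ⟨α1, α2, hα1, hα2, hsum, hsol⟩ : ∃ α1 α2 : ℕ, 0 < α1 ∧ 0 < α2 ∧
      α1 + α1 + α2 = m b.1 ∧ ∀ c0 c1 c2 : ℂ, ∃ S T, Par S T ∧ ∃ y : ℂ → ℂ, Differentiable ℂ y ∧
        ∀ z, y z ^ m b.1 = (S z + c0 * T z) ^ α1 * ((S z + c1 * T z) ^ α1 *
          (S z + c2 * T z) ^ α2) := by
    rcases h with ⟨μ, hμ⟩ | ⟨μ, hμ⟩
    · refine ⟨μ, μ, by omega, by omega, by omega, fun c0 c1 c2 => ?_⟩
      obtain ⟨S, T, hP, h⟩ := e3' ![c0, c1, c2]
      obtain ⟨y0, d0, h0⟩ := h 0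
      obtain ⟨y1, d1, h1⟩ := h 1
      obtain ⟨y2, d2, h2⟩ := h 2
      simp only [Matrix.cons_val] at h0 h1 h2
      refine ⟨S, T, hP, fun z => y0 z * (y1 z * y2 z), d0.mul (d1.mul d2), fun z => ?_⟩
      rw [h0, h1, h2, hμ, pow_mul]
      ring
    · refine ⟨μ, 2 * μ, by omega, by omega, by omega, fun c0 c1 c2 => ?_⟩
      obtain ⟨S, T, hP, ⟨y0, d0, h0⟩, ⟨y1, d1, h1⟩, ⟨y2, d2, h2⟩⟩ := e42' c0 c1 c2
      refine ⟨S, T, hP, fun z => y0 z * (y1 z * y2 z), d0.mul (d1.mul d2), fun z => ?_⟩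
      rw [h0, h1, h2, hμ, pow_mul]
      ring
  refine of_pattern (q := 2) (β := 0) m (fun i => by have := hm i; omega) F e hF G d hG B δ hB
    ![b, b] (Sum.elim (fun j => if j = b then α1 else m j.1) ![α1, α2]) Fin.elim0 ?_
    (fun s => s.elim0) (by omega) ?_ (by simp [hδ]) ?_ p hp0 hpF hpG hpB
  · rintro (j | j)
    · simp only [Sum.elim_inl]
      have := hm j.1
      split_ifs <;> omega
    · fin_cases j
      · exact hα1
      · exact hα2
  · intro j
    simp only [Sum.elim_inl, Sum.elim_inr, Fin.sum_univ_two, Matrix.cons_val_zero,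
      Matrix.cons_val_one]
    by_cases hj : b = j
    · subst hj
      simp
      omega
    · have hj' : ¬ j = b := fun h => hj h.symm
      simp [hj, hj']
  · intro c cB
    obtain ⟨S, T, hP, y, hy, hy'⟩ := hsol (c (Sum.inl b)) (c (Sum.inr 0)) (c (Sum.inr 1))
    refine ⟨S, T, hP, fun a => a.elim0, fun j => ?_⟩
    by_cases hj : b = j
    · subst hj
      exact ⟨y, hy, fun z => by simp [hy', Fin.prod_univ_two]⟩
    · have hj' : ¬ j = b := fun h => hj h.symm
      exact ⟨_, hP.lin (c (Sum.inl j)), fun z => by simp [hj, hj']⟩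

/-- type `(2,2,2,2)` -/
theorem case_double (hδ : δ = 0) (hK : ∑ i, (m i - 1) * e i + ∑ j, d j ≤ n + 1)
    (b0 b1 : Σ i : Fin r, Fin (e i)) (hb : b0 ≠ b1) (μ0 μ1 : ℕ) (h0 : m b0.1 = 2 * μ0)
    (h1 : m b1.1 = 2 * μ1) : LineCurve m F G B p := by
  classical
  have hb0 := hm b0.1
  have hb1 := hm b1.1
  refine of_pattern (q := 2) (β := 0) m (fun i => by have := hm i; omega) F e hF G d hG B δ hB
    ![b0, b1] (Sum.elim (fun j => if j = b0 then μ0 else if j = b1 then μ1 else m j.1) ![μ0, μ1])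
    Fin.elim0 ?_ (fun s => s.elim0) (by omega) ?_ (by simp [hδ]) ?_ p hp0 hpF hpG hpB
  · rintro (j | j)
    · simp only [Sum.elim_inl]
      have := hm j.1
      split_ifs <;> omega
    · fin_cases j
      · simp
        omega
      · simp
        omega
  · intro j
    simp only [Sum.elim_inl, Sum.elim_inr, Fin.sum_univ_two, Matrix.cons_val_zero,
      Matrix.cons_val_one]
    by_cases hj : b0 = j
    · subst hj
      simp [hb.symm, h0]
      omega
    · by_cases hj1 : b1 = j
      · subst hj1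
        simp [hb, hb.symm, h1]
        omega
      · have hj' : ¬ j = b0 := fun h => hj h.symm
        have hj1' : ¬ j = b1 := fun h => hj1 h.symm
        simp [hj, hj', hj1, hj1']
  · intro c cB
    obtain ⟨S, T, hP, h⟩ := e4' ![c (Sum.inl b0), c (Sum.inr 0), c (Sum.inl b1), c (Sum.inr 1)]
    obtain ⟨y0, d0, k0⟩ := h 0
    obtain ⟨y1, d1, k1⟩ := h 1
    obtain ⟨y2, d2, k2⟩ := h 2
    obtain ⟨y3, d3, k3⟩ := h 3
    simp only [Matrix.cons_val] at k0 k1 k2 k3
    refine ⟨S, T, hP, fun a => a.elim0, fun j => ?_⟩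
    by_cases hj : b0 = j
    · subst hj
      refine ⟨fun z => y0 z * y1 z, d0.mul d1, fun z => ?_⟩
      have hb' : ¬ b1 = b0 := hb.symm
      simp only [Sum.elim_inl, Sum.elim_inr, if_true, Matrix.cons_val_zero, Matrix.cons_val_one,
        hb', if_false, mul_one, Fin.prod_univ_two]
      rw [k0, k1, h0, pow_mul]
      ring
    · by_cases hj1 : b1 = j
      · subst hj1
        refine ⟨fun z => y2 z * y3 z, d2.mul d3, fun z => ?_⟩
        simp only [Sum.elim_inl, Sum.elim_inr, if_true, Matrix.cons_val_zero, Matrix.cons_val_one,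
          hb.symm, hb, if_false, one_mul, Fin.prod_univ_two]
        rw [k2, k3, h1, pow_mul]
        ring
      · have hj' : ¬ j = b0 := fun h => hj h.symm
        have hj1' : ¬ j = b1 := fun h => hj1 h.symm
        exact ⟨_, hP.lin (c (Sum.inl j)), fun z => by simp [hj, hj', hj1, hj1']⟩

/-- all cases -/
theorem line_curve (he : ∀ i, 0 < e i) (hK : ∑ i, (m i - 1) * e i + δ + ∑ j, d j ≤ n + 1)
    (h0 : δ = 0 → ∑ i, (m i - 1) * e i + ∑ j, d j = n + 1 →
      (∃ i, 3 ∣ m i ∨ 4 ∣ m i) ∨ 2 ≤ ∑ i with 2 ∣ m i, e i)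
    (h0' : δ = 0 → ∑ i, (m i - 1) * e i + ∑ j, d j = n → 0 < r)
    (h1 : δ = 1 → ∑ i, (m i - 1) * e i + ∑ j, d j = n → ∃ i, 2 ∣ m i) :
    LineCurve m F G B p := by
  classical
  by_cases hδ : δ = 0
  · have h0 := h0 hδ
    have h0' := h0' hδ
    by_cases hlt : ∑ i, (m i - 1) * e i + ∑ j, d j < n
    · exact case_0 m hm F e hF G d hG B δ hB p hp0 hpF hpG hpB hδ hlt
    by_cases heq : ∑ i, (m i - 1) * e i + ∑ j, d j = n
    · exact case_0' m hm F e hF G d hG B δ hB p hp0 hpF hpG hpB hδ heq.le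
        ⟨⟨0, h0' heq⟩, ⟨0, he _⟩⟩
    rcases h0 (by omega) with ⟨i, hi⟩ | h2
    · exact case_triple m hm F e hF G d hG B δ hB p hp0 hpF hpG hpB hδ (by omega)
        ⟨i, ⟨0, he i⟩⟩ hi
    · have hcard : 1 < (Finset.univ.filter fun j : Σ i : Fin r, Fin (e i) => 2 ∣ m j.1).card := by
        rw [Finset.card_filter, Fintype.sum_sigma]
        rw [Finset.sum_filter] at h2
        refine lt_of_lt_of_le h2 (Finset.sum_le_sum fun i _ => ?_)
        split_ifs <;> simp
      obtain ⟨b0, hb0, b1, hb1, hb⟩ := Finset.one_lt_card.1 hcard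
      simp only [Finset.mem_filter, Finset.mem_univ, true_and] at hb0 hb1
      obtain ⟨μ0, hμ0⟩ := hb0
      obtain ⟨μ1, hμ1⟩ := hb1
      exact case_double m hm F e hF G d hG B δ hB p hp0 hpF hpG hpB hδ (by omega)
        b0 b1 hb μ0 μ1 hμ0 hμ1
  · by_cases hδ2 : 2 ≤ δ
    · exact case_B2 m hm F e hF G d hG B δ hB p hp0 hpF hpG hpB hδ2 hK
    · have hδ1 : δ = 1 := by omega
      by_cases hle : ∑ i, (m i - 1) * e i + δ + ∑ j, d j ≤ n
      · exact case_B1 m hm F e hF G d hG B δ hB p hp0 hpF hpG hpB (by omega) hle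
      · obtain ⟨i, μ, hμ⟩ := h1 hδ1 (by omega)
        exact case_B1' m hm F e hF G d hG B δ hB p hp0 hpF hpG hpB hδ1 hK
          ⟨i, ⟨0, he i⟩⟩ μ hμ

end

end Pool.Agent.W600.Ell
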