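import Pool.Agent.W600.Ell.Forms
import Pool.Agent.W600.Ell.Lines
import Pool.Agent.H734R3.LV.Good

/-!
# Entire curves in multi-cyclic covers of complete intersections
-/

set_option autoImplicit false

namespace Pool.Agent.W600.Ell

open MvPolynomial Pool.Agent.H734R3.LV Filter Topology

/-- scaling of weighted homogeneous polynomials -/
theorem eval_wscale {σ R : Type*} [Fintype σ] [CommRing R] {w : σ → ℕ} {D : ℕ}
    {f : MvPolynomial σ R} (hf : IsWeightedHomogeneous w f D) (a : R) (x : σ → R) :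
    eval (fun j => a ^ w j * x j) f = a ^ D * eval x f := by
  rw [eval_eq', eval_eq', Finset.mul_sum]
  refine Finset.sum_congr rfl fun s hs => ?_
  have hs' := hf (mem_support_iff.1 hs)
  have : ∏ i, (a ^ w i * x i) ^ s i = a ^ D * ∏ i, x i ^ s i := by
    simp_rw [mul_pow, Finset.prod_mul_distrib, ← pow_mul]
    rw [Finset.prod_pow_eq_pow_sum]
    congr 2
    rw [← hs', Finsupp.weight_apply, Finsupp.sum_fintype _ _ (by simp)]
    exact Finset.sum_congr rfl fun i _ => by rw [smul_eq_mul, mul_comm]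
  rw [this]
  ring

theorem eval_scale {σ R : Type*} [Fintype σ] [CommRing R] {D : ℕ}
    {f : MvPolynomial σ R} (hf : f.IsHomogeneous D) (a : R) (x : σ → R) :
    eval (fun j => a * x j) f = a ^ D * eval x f := by
  have := eval_wscale (w := 1) hf a x
  simpa using this

theorem continuous_eval_line {n : ℕ} (f : MvPolynomial (Fin (n + 1)) ℂ) (p v : Fin (n + 1) → ℂ)
    (T : ℂ) : Continuous fun S : ℂ => eval (fun j => S * p j + T * v j) f :=
  (MvPolynomial.continuous_eval f).comp (by fun_prop)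

/-- homogenised factorisation on a line -/
theorem eval_line {n : ℕ} {σ : Type*} {f : MvPolynomial (Fin (n + 1)) ℂ} {D : ℕ}
    (hf : f.IsHomogeneous D)
    (p v : Fin (n + 1) → ℂ) (s : Finset σ) (c : σ → ℂ) (mult : σ → ℕ) (hD : ∑ i ∈ s, mult i = D)
    (h : ∀ t, eval (fun j => p j + t * v j) f = eval p f * ∏ i ∈ s, (1 + c i * t) ^ mult i)
    (S T : ℂ) : eval (fun j => S * p j + T * v j) f =
      eval p f * ∏ i ∈ s, (S + c i * T) ^ mult i := by
  have key : ∀ S : ℂ, S ≠ 0 → eval (fun j => S * p j + T * v j) f =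
      eval p f * ∏ i ∈ s, (S + c i * T) ^ mult i := by
    intro S hS
    have e1 : (fun j => S * p j + T * v j) = fun j => S * (p j + T / S * v j) := by
      funext j
      field_simp
    rw [e1, eval_scale hf, h, ← hD, ← Finset.prod_pow_eq_pow_sum]
    have : ∏ i ∈ s, (S + c i * T) ^ mult i = (∏ i ∈ s, S ^ mult i) *
        ∏ i ∈ s, (1 + c i * (T / S)) ^ mult i := by
      rw [← Finset.prod_mul_distrib]
      refine Finset.prod_congr rfl fun i _ => ?_
      rw [← mul_pow]
      congr 1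
      field_simp
    rw [this]
    ring
  by_cases hS : S = 0
  · subst hS
    have h1 := (continuous_eval_line f p v T).tendsto 0
    have h2 : Continuous fun S : ℂ => eval p f * ∏ i ∈ s, (S + c i * T) ^ mult i := by fun_prop
    have h3 := h2.tendsto 0
    have h4 : (fun S : ℂ => eval (fun j => S * p j + T * v j) f) =ᶠ[𝓝[≠] 0]
        fun S => eval p f * ∏ i ∈ s, (S + c i * T) ^ mult i := by
      filter_upwards [self_mem_nhdsWithin] with S hS
      exact key S hS
    exact tendsto_nhds_unique ((h1.mono_left nhdsWithin_le_nhds).congr' h4)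
      (h3.mono_left nhdsWithin_le_nhds)
  · exact key S hS

/-- homogenised vanishing on a line -/
theorem eval_line_zero {n : ℕ} {f : MvPolynomial (Fin (n + 1)) ℂ} {D : ℕ}
    (hf : f.IsHomogeneous D) (p v : Fin (n + 1) → ℂ)
    (h : ∀ t, eval (fun j => p j + t * v j) f = 0)
    (S T : ℂ) : eval (fun j => S * p j + T * v j) f = 0 := by
  have key : ∀ S : ℂ, S ≠ 0 → eval (fun j => S * p j + T * v j) f = 0 := by
    intro S hS
    have e1 : (fun j => S * p j + T * v j) = fun j => S * (p j + T / S * v j) := by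
      funext j
      field_simp
    rw [e1, eval_scale hf, h, mul_zero]
  by_cases hS : S = 0
  · subst hS
    have h1 := (continuous_eval_line f p v T).tendsto 0
    have h4 : (fun S : ℂ => eval (fun j => S * p j + T * v j) f) =ᶠ[𝓝[≠] 0] fun _ => 0 := by
      filter_upwards [self_mem_nhdsWithin] with S hS
      exact key S hS
    exact tendsto_nhds_unique ((h1.mono_left nhdsWithin_le_nhds).congr' h4) tendsto_const_nhds
  · exact key S hS

/-- the data of an entire curve over a line through `p` -/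
def LineCurve {n r g : ℕ} (m : Fin r → ℕ) (F : Fin r → MvPolynomial (Fin (n + 1)) ℂ)
    (G : Fin g → MvPolynomial (Fin (n + 1)) ℂ) (B : MvPolynomial (Fin (n + 1)) ℂ)
    (p : Fin (n + 1) → ℂ) : Prop :=
  ∃ v : Fin (n + 1) → ℂ, (∀ a b : ℂ, (fun j => a * p j + b * v j) = 0 → a = 0 ∧ b = 0) ∧
    ∃ S T : ℂ → ℂ, Par S T ∧ ∃ W : Fin r → ℂ → ℂ, (∀ i, Differentiable ℂ (W i)) ∧
      ∀ z, (∀ i, W i z ^ m i = eval (fun j => S z * p j + T z * v j) (F i)) ∧
        (∀ i, eval (fun j => S z * p j + T z * v j) (G i) = 0) ∧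
        eval (fun j => S z * p j + T z * v j) B ≠ 0

/-- from patterns to curves -/
theorem of_pattern {n r g q β : ℕ} (m : Fin r → ℕ) (hm0 : ∀ i, m i ≠ 0)
    (F : Fin r → MvPolynomial (Fin (n + 1)) ℂ) (e : Fin r → ℕ)
    (hF : ∀ i, (F i).IsHomogeneous (m i * e i))
    (G : Fin g → MvPolynomial (Fin (n + 1)) ℂ) (d : Fin g → ℕ) (hG : ∀ i, (G i).IsHomogeneous (d i))
    (B : MvPolynomial (Fin (n + 1)) ℂ) (δ : ℕ) (hB : B.IsHomogeneous δ)
    (b : Fin q → Σ i : Fin r, Fin (e i)) (mult : (Σ i : Fin r, Fin (e i)) ⊕ Fin q → ℕ)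
    (multB : Fin β → ℕ) (hmult : ∀ s, 0 < mult s) (hmultB : ∀ s, 0 < multB s)
    (hcard : ∑ i, (m i - 1) * e i + δ + ∑ j, d j < n + q + β)
    (hsum : ∀ j, mult (Sum.inl j) + ∑ a, (if b a = j then mult (Sum.inr a) else 0) = m j.1)
    (hsumB : ∑ a, multB a = δ)
    (hT : ∀ (c : (Σ i : Fin r, Fin (e i)) ⊕ Fin q → ℂ) (cB : Fin β → ℂ), ∃ S T : ℂ → ℂ,
      Par S T ∧ (∀ a z, S z + cB a * T z ≠ 0) ∧ ∀ j, ∃ y : ℂ → ℂ, Differentiable ℂ y ∧ ∀ z,
        y z ^ m j.1 = (S z + c (Sum.inl j) * T z) ^ mult (Sum.inl j) *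
          ∏ a, (if b a = j then (S z + c (Sum.inr a) * T z) ^ mult (Sum.inr a) else 1))
    (p : Fin (n + 1) → ℂ) (hp0 : p ≠ 0) (hpF : ∀ i, eval p (F i) ≠ 0) (hpG : ∀ i, eval p (G i) = 0)
    (hpB : eval p B ≠ 0) : LineCurve m F G B p := by
  classical
  let J := Σ i : Fin r, Fin (e i)
  let own0 : J ⊕ Fin q → Fin r := fun s => (slot b s).1
  let own : (J ⊕ Fin q) ⊕ Fin β → Option (Fin r) := Sum.elim (fun s => some (own0 s)) fun _ => none
  let mu : (J ⊕ Fin q) ⊕ Fin β → ℕ := Sum.elim mult multB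
  let f : Option (Fin r) → MvPolynomial (Fin (n + 1)) ℂ := fun i => i.elim B F
  have hcardfib : ∀ i, (Finset.univ.filter fun j : J => j.1 = i).card = e i := by
    intro i
    rw [Finset.card_filter, Fintype.sum_sigma, Finset.sum_eq_single i]
    · simp
    · intro b _ hb
      simp [hb]
    · simp
  have hown : ∀ i, ∑ s with own0 s = i, mult s = m i * e i := by
    intro i
    have h1 : ∑ s with own0 s = i, mult s = ∑ j : J with j.1 = i, ∑ s with slot b s = j, mult s :=
      prod_own (fun j : J => j.1) (M := Multiplicative ℕ) b mult i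
    have h2 : ∑ j : J with j.1 = i, ∑ s with slot b s = j, mult s = ∑ j : J with j.1 = i, m i := by
      refine Finset.sum_congr rfl fun j hj => ?_
      rw [sum_slot b j mult, hsum j]
      have : j.1 = i := by simpa using hj
      rw [this]
    rw [h1, h2, Finset.sum_const, hcardfib, smul_eq_mul, mul_comm]
  have hsplit : ∀ {M : Type} [AddCommMonoid M] (φ : (J ⊕ Fin q) ⊕ Fin β → M) (i : Fin r),
      ∑ s with own s = some i, φ s = ∑ s with own0 s = i, φ (Sum.inl s) := by
    intro M _ φ i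
    rw [Finset.sum_filter, Fintype.sum_sum_type, Finset.sum_filter]
    simp [own]
  have hsplitN : ∀ {M : Type} [AddCommMonoid M] (φ : (J ⊕ Fin q) ⊕ Fin β → M),
      ∑ s with own s = none, φ s = ∑ s, φ (Sum.inr s) := by
    intro M _ φ
    rw [Finset.sum_filter, Fintype.sum_sum_type]
    simp [own]
  have hsplit' : ∀ (φ : (J ⊕ Fin q) ⊕ Fin β → ℂ) (i : Fin r),
      ∏ s with own s = some i, φ s = ∏ s with own0 s = i, φ (Sum.inl s) := by
    intro φ i
    rw [Finset.prod_filter, Fintype.prod_sum_type, Finset.prod_filter]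
    simp [own]
  have hsplitN' : ∀ (φ : (J ⊕ Fin q) ⊕ Fin β → ℂ),
      ∏ s with own s = none, φ s = ∏ s, φ (Sum.inr s) := by
    intro φ
    rw [Finset.prod_filter, Fintype.prod_sum_type]
    simp [own]
  have hdegF : ∀ i, ∑ s with own s = some i, mu s = m i * e i := fun i => by
    rw [hsplit]
    exact hown i
  have hdegB : ∑ s with own s = none, mu s = δ := by
    rw [hsplitN]
    exact hsumB
  have htot : ∑ s, mult s = ∑ i, m i * e i := by
    rw [← Finset.sum_fiberwise Finset.univ own0 mult, Finset.sum_congr rfl fun i _ => hown i]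
  have hcard' : ∑ s, mu s + ∑ j, d j < n + Fintype.card ((J ⊕ Fin q) ⊕ Fin β) := by
    rw [Fintype.sum_sum_type]
    simp only [mu, Sum.elim_inl, Sum.elim_inr]
    rw [htot, hsumB]
    simp only [J, Fintype.card_sum, Fintype.card_sigma, Fintype.card_fin]
    have h3 : ∑ i, m i * e i = ∑ i, (m i - 1) * e i + ∑ i, e i := by
      rw [← Finset.sum_add_distrib]
      refine Finset.sum_congr rfl fun i _ => ?_
      obtain ⟨m', hm'⟩ : ∃ m', m i = m' + 1 := ⟨m i - 1, by have := hm0 i; omega⟩
      rw [hm', Nat.add_sub_cancel]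
      ring
    omega
  obtain ⟨v, hv, c, hc, hcG⟩ := exists_line f own mu
    (by rintro (s | s); exacts [hmult s, hmultB s]) (by
      rintro (_ | i)
      · exact hB.totalDegree_le.trans hdegB.ge
      · exact (hF i).totalDegree_le.trans (hdegF i).ge) G d (fun j => (hG j).totalDegree_le)
    hcard' p hp0 (by rintro (_ | i); exacts [hpB, hpF i]) hpG
  obtain ⟨S, T, hP, hU, hY⟩ := hT (fun s => c (Sum.inl s)) (fun s => c (Sum.inr s))
  choose y hy hy' using hY
  choose ρ hρ using fun i => IsAlgClosed.exists_pow_nat_eq (eval p (F i))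
    (Nat.pos_of_ne_zero (hm0 i))
  refine ⟨v, hv, S, T, hP, fun i z => ρ i * ∏ j : J with j.1 = i, y j z, fun i => ?_, fun z =>
    ⟨fun i => ?_, fun i => ?_, ?_⟩⟩
  · exact (Differentiable.fun_finsetProd fun j _ => hy j).const_mul _
  · rw [eval_line (hF i) p v _ c mu (hdegF i) (hc (some i)), hsplit', mul_pow, hρ,
      ← Finset.prod_pow]
    congr 1
    refine Eq.trans ?_ (prod_own (fun j : J => j.1) b
      (fun s => (S z + c (Sum.inl s) * T z) ^ mult s) i).symm
    refine Finset.prod_congr rfl fun j hj => ?_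
    have hji : j.1 = i := by simpa using hj
    rw [← hji, hy' j, prod_slot]
  · exact eval_line_zero (hG i) p v (hcG i) _ _
  · rw [eval_line hB p v _ c mu hdegB (hc none), hsplitN']
    exact mul_ne_zero hpB (Finset.prod_ne_zero_iff.2 fun a _ => pow_ne_zero _ (hU a z))

end Pool.Agent.W600.Ell
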