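import Pool.Agent.W600.Ell.Poincare

/-!
# Entire curves in three families of elliptic curves

* `n² - s² = c²`, `n² - lam s² = d²`;
* `x³ + y³ + z³ = 0`;
* `x⁴ + y⁴ = w²`.
-/

set_option autoImplicit false

namespace Pool.Agent.W600.Ell

open Metric Set Filter Topology

/-! ### Intersections of two diagonal quadrics -/

/-- duplication -/
noncomputable def GJ (lam : ℂ) (x : Fin 4 → ℂ) : Fin 4 → ℂ :=
  ![x 0 ^ 4 - lam * x 1 ^ 4, 2 * x 1 * x 2 * x 3 * x 0,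
    x 0 ^ 4 - 2 * x 1 ^ 2 * x 0 ^ 2 + lam * x 1 ^ 4,
    x 0 ^ 4 - 2 * lam * x 1 ^ 2 * x 0 ^ 2 + lam * x 1 ^ 4]

/-- the two equations -/
noncomputable def eJ (lam : ℂ) (x : Fin 4 → ℂ) : ℝ :=
  ‖x 1 ^ 2 + x 2 ^ 2 - x 0 ^ 2‖ + ‖lam * x 1 ^ 2 + x 3 ^ 2 - x 0 ^ 2‖

theorem jacobi (lam : ℂ) (h0 : lam ≠ 0) (h1 : lam ≠ 1) :
    ∃ Φ : ℂ → Fin 4 → ℂ, Differentiable ℂ Φ ∧
      (∀ z, Φ z 1 ^ 2 + Φ z 2 ^ 2 = Φ z 0 ^ 2) ∧ (∀ z, lam * Φ z 1 ^ 2 + Φ z 3 ^ 2 = Φ z 0 ^ 2) ∧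
      (∀ z, Φ z 0 ≠ 0 ∨ Φ z 1 ≠ 0) ∧ ∃ z, Φ 0 1 = 0 ∧ Φ z 1 ≠ 0 ∧ Φ 0 0 ≠ 0 := by
  have hG : Differentiable ℂ (GJ lam) := by
    rw [differentiable_pi]
    intro j
    fin_cases j <;> simp only [GJ] <;> simp <;> fun_prop
  let Φ₀ : ℂ → Fin 4 → ℂ := fun z => ![1, z, 1 - z ^ 2 / 2, 1 - lam * z ^ 2 / 2]
  have hΦ₀ : Differentiable ℂ Φ₀ := by
    rw [differentiable_pi]
    intro j
    fin_cases j <;> simp only [Φ₀] <;> simp <;> fun_prop
  let g : ℂ → Fin 4 → ℂ := fun z => ![-lam * z / 16,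
    -1 / 8 - lam / 8 + lam * z ^ 2 / 64, lam * z / 16, lam * z / 16]
  have hg : Continuous g := by
    rw [continuous_pi_iff]
    intro j
    fin_cases j <;> simp only [g] <;> simp <;> fun_prop
  have hP : Φ₀ 0 = ![1, 0, 1, 1] := by simp [Φ₀]
  have main : ∃ Φ : ℂ → Fin 4 → ℂ, Differentiable ℂ Φ ∧
      (∀ z, eJ lam (Φ z) = 0 ∧ (Φ z 0 ≠ 0 ∨ Φ z 1 ≠ 0)) ∧
      ∃ ρ C' : ℝ, 0 < ρ ∧ 0 ≤ C' ∧ ∀ z, ‖z‖ < ρ → ‖Φ z - Φ₀ z‖ ≤ C' * ‖z‖ ^ 3 := by
    refine poincare_main (GJ lam) hG 2 (by norm_num) 3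
      (by norm_num) Φ₀ hΦ₀ 4 (by norm_num) (by norm_num) ?_ g hg ?_ (eJ lam) ?_ ?_ 1 (1 + ‖lam‖ ^ 2)
      (by norm_num) (by norm_num) ?_ ?_ ?_ (fun x => x 0 ≠ 0 ∨ x 1 ≠ 0) ?_ ?_
    · -- derivatives
      rw [hP]
      have hv : ∀ (v : Fin 4 → ℂ) (i : Fin 4), ‖v i‖ ≤ ‖v‖ := fun v i => norm_le_pi_norm v i
      have a := fun i : Fin 4 => hasStrictFDerivAt_apply (𝕜 := ℂ) (F' := fun _ => ℂ) i
        (![1, 0, 1, 1] : Fin 4 → ℂ)
      intro j
      fin_cases j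
      · refine ⟨_, (((a 0).pow 4).sub (((a 1).pow 4).const_mul lam)), fun v => ?_⟩
        have := hv v 0
        simp
        linarith
      · refine ⟨_, (((((a 1).const_mul 2).mul (a 2)).mul (a 3)).mul (a 0)), fun v => ?_⟩
        have := hv v 1
        simp
        nlinarith [norm_nonneg v]
      · refine ⟨_, ((((a 0).pow 4).sub ((((a 1).pow 2).const_mul 2).mul ((a 0).pow 2))).add
          (((a 1).pow 4).const_mul lam)), fun v => ?_⟩
        have := hv v 0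
        simp
        linarith
      · refine ⟨_, ((((a 0).pow 4).sub ((((a 1).pow 2).const_mul (2 * lam)).mul ((a 0).pow 2))).add
          (((a 1).pow 4).const_mul lam)), fun v => ?_⟩
        have := hv v 0
        simp
        linarith
    · intro z
      funext j
      fin_cases j <;> simp [GJ, Φ₀, g] <;> ring
    · unfold eJ
      fun_prop
    · intro x
      unfold eJ
      positivity
    · -- contraction
      rw [hP]
      have hc : ContinuousAt (fun x : Fin 4 → ℂ => ‖4 * x 1 ^ 2 * x 0 ^ 2 * x 3 ^ 2‖ +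
          ‖4 * x 1 ^ 2 * x 0 ^ 2 * (x 0 ^ 2 - x 1 ^ 2)‖ + ‖lam * (4 * x 1 ^ 2 * x 0 ^ 2 * x 3 ^ 2)‖ +
          ‖lam * (4 * x 1 ^ 2 * x 0 ^ 2 * (x 0 ^ 2 - x 1 ^ 2))‖) ![1, 0, 1, 1] := by fun_prop
      have hc' := hc.eventually_lt_const (u := 1) (by simp)
      filter_upwards [hc'] with x hx
      set E1 := x 1 ^ 2 + x 2 ^ 2 - x 0 ^ 2 with hE1
      set E2 := lam * x 1 ^ 2 + x 3 ^ 2 - x 0 ^ 2 with hE2
      set A := 4 * x 1 ^ 2 * x 0 ^ 2 * x 3 ^ 2 with hA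
      set B := 4 * x 1 ^ 2 * x 0 ^ 2 * (x 0 ^ 2 - x 1 ^ 2) with hB
      have i1 : GJ lam x 1 ^ 2 + GJ lam x 2 ^ 2 - GJ lam x 0 ^ 2 = E1 * A + E2 * B := by
        simp only [GJ, hA, hB, hE1, hE2]
        simp
        ring
      have i2 : lam * GJ lam x 1 ^ 2 + GJ lam x 3 ^ 2 - GJ lam x 0 ^ 2 =
          E1 * (lam * A) + E2 * (lam * B) := by
        simp only [GJ, hA, hB, hE1, hE2]
        simp
        ring
      rw [eJ, eJ, i1, i2]
      have n1 := norm_add_le (E1 * A) (E2 * B)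
      have n2 := norm_add_le (E1 * (lam * A)) (E2 * (lam * B))
      rw [norm_mul, norm_mul E2] at n1 n2
      have p1 := norm_nonneg E1
      have p2 := norm_nonneg E2
      have q1 := norm_nonneg A
      have q2 := norm_nonneg B
      have q3 := norm_nonneg (lam * A)
      have q4 := norm_nonneg (lam * B)
      nlinarith
    · intro x hx
      have a1 := norm_nonneg (x 1 ^ 2 + x 2 ^ 2 - x 0 ^ 2)
      have a2 := norm_nonneg (lam * x 1 ^ 2 + x 3 ^ 2 - x 0 ^ 2)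
      rw [eJ] at hx
      have e1 : x 1 ^ 2 + x 2 ^ 2 - x 0 ^ 2 = 0 := norm_eq_zero.1 (by linarith)
      have e2 : lam * x 1 ^ 2 + x 3 ^ 2 - x 0 ^ 2 = 0 := norm_eq_zero.1 (by linarith)
      have i1 : GJ lam x 1 ^ 2 + GJ lam x 2 ^ 2 - GJ lam x 0 ^ 2 = 0 := by
        simp only [GJ]
        simp
        linear_combination (4 * x 1 ^ 2 * x 0 ^ 2 * x 3 ^ 2) * e1 +
          (4 * x 1 ^ 2 * x 0 ^ 2 * (x 0 ^ 2 - x 1 ^ 2)) * e2
      have i2 : lam * GJ lam x 1 ^ 2 + GJ lam x 3 ^ 2 - GJ lam x 0 ^ 2 = 0 := by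
        simp only [GJ]
        simp
        linear_combination lam * (4 * x 1 ^ 2 * x 0 ^ 2 * x 3 ^ 2) * e1 +
          lam * (4 * x 1 ^ 2 * x 0 ^ 2 * (x 0 ^ 2 - x 1 ^ 2)) * e2
      rw [eJ, i1, i2]
      simp
    · intro z hz
      rw [eJ]
      have e1 : Φ₀ z 1 ^ 2 + Φ₀ z 2 ^ 2 - Φ₀ z 0 ^ 2 = z ^ 4 / 4 := by
        simp [Φ₀]
        ring
      have e2 : lam * Φ₀ z 1 ^ 2 + Φ₀ z 3 ^ 2 - Φ₀ z 0 ^ 2 = lam ^ 2 * z ^ 4 / 4 := by
        simp [Φ₀]
        ring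
      rw [e1, e2, norm_div, norm_div, norm_mul, norm_pow, norm_pow]
      have h4 : ‖(4 : ℂ)‖ = 4 := by norm_num
      rw [h4]
      have h5 : ‖z‖ ^ 4 ≤ ‖z‖ ^ 3 := pow_le_pow_of_le_one (norm_nonneg _) hz.le (by norm_num)
      have h6 : 0 ≤ ‖lam‖ ^ 2 := by positivity
      have h7 : 0 ≤ ‖z‖ ^ 4 := by positivity
      nlinarith [mul_nonneg h6 h7, mul_le_mul_of_nonneg_left h5 h6]
    · -- no common zeros
      intro x hx hQ
      by_contra hcon
      push Not at hcon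
      obtain ⟨c0, c1⟩ := hcon
      have a1 := norm_nonneg (x 1 ^ 2 + x 2 ^ 2 - x 0 ^ 2)
      have a2 := norm_nonneg (lam * x 1 ^ 2 + x 3 ^ 2 - x 0 ^ 2)
      rw [eJ] at hx
      have e1 : x 1 ^ 2 + x 2 ^ 2 - x 0 ^ 2 = 0 := norm_eq_zero.1 (by linarith)
      have e2 : lam * x 1 ^ 2 + x 3 ^ 2 - x 0 ^ 2 = 0 := norm_eq_zero.1 (by linarith)
      have c0' : x 0 ^ 4 = lam * x 1 ^ 4 := by
        have : x 0 ^ 4 - lam * x 1 ^ 4 = 0 := by simpa [GJ] using c0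
        linear_combination this
      have c1' : x 1 * x 2 * x 3 * x 0 = 0 := by
        have : 2 * x 1 * x 2 * x 3 * x 0 = 0 := by simpa [GJ] using c1
        linear_combination this / 2
      have key : x 1 = 0 → False := by
        intro h
        rw [h] at c0'
        have h0' : x 0 = 0 := by
          have : x 0 ^ 4 = 0 := by rw [c0']; ring
          exact pow_eq_zero_iff (by norm_num) |>.1 this
        rcases hQ with h2 | h2
        · exact h2 h0'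
        · exact h2 h
      have hx1 : x 1 ≠ 0 := key
      rcases mul_eq_zero.1 c1' with h | h
      · rcases mul_eq_zero.1 h with h | h
        · rcases mul_eq_zero.1 h with h | h
          · exact key h
          · -- x 2 = 0
            rw [h] at e1
            have h2 : (1 - lam) * x 1 ^ 4 = 0 := by
              linear_combination (x 1 ^ 2 + x 0 ^ 2) * e1 + c0'
            rcases mul_eq_zero.1 h2 with h3 | h3
            · exact h1 (by linear_combination -h3)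
            · exact hx1 (pow_eq_zero_iff (by norm_num) |>.1 h3)
        · -- x 3 = 0
          rw [h] at e2
          have h2 : (lam * (lam - 1)) * x 1 ^ 4 = 0 := by
            linear_combination (lam * x 1 ^ 2 + x 0 ^ 2) * e2 + c0'
          rcases mul_eq_zero.1 h2 with h3 | h3
          · rcases mul_eq_zero.1 h3 with h4 | h4
            · exact h0 h4
            · exact h1 (by linear_combination h4)
          · exact hx1 (pow_eq_zero_iff (by norm_num) |>.1 h3)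
      · -- x 0 = 0
        rw [h] at c0'
        have h2 : lam * x 1 ^ 4 = 0 := by rw [← c0']; ring
        rcases mul_eq_zero.1 h2 with h3 | h3
        · exact h0 h3
        · exact hx1 (pow_eq_zero_iff (by norm_num) |>.1 h3)
    · rw [hP]
      have hc : ContinuousAt (fun x : Fin 4 → ℂ => x 0) ![1, 0, 1, 1] :=
        (continuous_apply 0).continuousAt
      filter_upwards [hc.eventually_ne (y := 0) (by simp)] with x hx
      exact Or.inl hx
  obtain ⟨Φ, hΦ, hE, ρ, C', hρ, hC', hnear⟩ := main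
  have hE' : ∀ z, Φ z 1 ^ 2 + Φ z 2 ^ 2 = Φ z 0 ^ 2 ∧
      lam * Φ z 1 ^ 2 + Φ z 3 ^ 2 = Φ z 0 ^ 2 := by
    intro z
    have h := (hE z).1
    have a1 := norm_nonneg (Φ z 1 ^ 2 + Φ z 2 ^ 2 - Φ z 0 ^ 2)
    have a2 := norm_nonneg (lam * Φ z 1 ^ 2 + Φ z 3 ^ 2 - Φ z 0 ^ 2)
    rw [eJ] at h
    exact ⟨sub_eq_zero.1 (norm_eq_zero.1 (by linarith)),
      sub_eq_zero.1 (norm_eq_zero.1 (by linarith))⟩
  refine ⟨Φ, hΦ, fun z => (hE' z).1, fun z => (hE' z).2, fun z => (hE z).2, ?_⟩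
  have hΦ0 : Φ 0 = Φ₀ 0 := by
    have := hnear 0 (by simpa using hρ)
    rw [norm_zero, zero_pow (by norm_num), mul_zero] at this
    exact sub_eq_zero.1 (norm_le_zero_iff.1 this)
  -- a small point
  obtain ⟨t, ht0, ht1, ht2⟩ : ∃ t : ℝ, 0 < t ∧ t < ρ ∧ C' * t ^ 2 < 1 := by
    refine ⟨min (ρ / 2) (1 / (1 + C')), ?_, ?_, ?_⟩
    · positivity
    · exact lt_of_le_of_lt (min_le_left _ _) (by linarith)
    · set t := min (ρ / 2) (1 / (1 + C'))
      have ht : t ≤ 1 / (1 + C') := min_le_right _ _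
      have ht0 : 0 < t := by positivity
      have h3 : t * (1 + C') ≤ 1 := by rwa [le_div_iff₀ (by positivity)] at ht
      have h4 : t ≤ 1 := by nlinarith
      nlinarith [mul_nonneg hC' ht0.le]
  refine ⟨t, ?_, ?_, ?_⟩
  · rw [hΦ0, hP]; simp
  · intro h
    have h2 := hnear t (by rwa [Complex.norm_real, Real.norm_eq_abs, abs_of_pos ht0])
    have h3 := (norm_le_pi_norm (Φ t - Φ₀ t) 1).trans h2
    rw [Pi.sub_apply, h] at h3
    simp only [Φ₀, Matrix.cons_val_one, Matrix.cons_val_zero, zero_sub, norm_neg,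
      Complex.norm_real, Real.norm_eq_abs, abs_of_pos ht0] at h3
    nlinarith
  · rw [hΦ0, hP]; simp

/-! ### The Fermat cubic -/

/-- multiplication by `-2` -/
noncomputable def GF (x : Fin 3 → ℂ) : Fin 3 → ℂ :=
  ![x 0 * (x 1 ^ 3 - x 2 ^ 3), x 1 * (x 2 ^ 3 - x 0 ^ 3), x 2 * (x 0 ^ 3 - x 1 ^ 3)]

theorem fermat :
    ∃ Φ : ℂ → Fin 3 → ℂ, Differentiable ℂ Φ ∧
      (∀ z, Φ z 0 ^ 3 + Φ z 1 ^ 3 + Φ z 2 ^ 3 = 0) ∧
      (∀ z, Φ z 0 ≠ 0 ∨ Φ z 1 ≠ 0) ∧ ∃ z, Φ 0 2 = 0 ∧ Φ z 2 ≠ 0 ∧ Φ 0 0 ≠ 0 := by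
  have hG : Differentiable ℂ GF := by
    rw [differentiable_pi]
    intro j
    fin_cases j <;> simp only [GF] <;> simp <;> fun_prop
  let Φ₀ : ℂ → Fin 3 → ℂ := fun z => ![-1, 1, z]
  have hΦ₀ : Differentiable ℂ Φ₀ := by
    rw [differentiable_pi]
    intro j
    fin_cases j <;> simp only [Φ₀] <;> simp <;> fun_prop
  let g : ℂ → Fin 3 → ℂ := fun z => ![-1 / 8, -1 / 8, 0]
  have hg : Continuous g := by
    rw [continuous_pi_iff]
    intro j
    fin_cases j <;> simp only [g] <;> simp <;> fun_prop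
  have hP : Φ₀ 0 = ![-1, 1, 0] := by simp [Φ₀]
  have main : ∃ Φ : ℂ → Fin 3 → ℂ, Differentiable ℂ Φ ∧
      (∀ z, ‖Φ z 0 ^ 3 + Φ z 1 ^ 3 + Φ z 2 ^ 3‖ = 0 ∧ (Φ z 0 ≠ 0 ∨ Φ z 1 ≠ 0)) ∧
      ∃ ρ C' : ℝ, 0 < ρ ∧ 0 ≤ C' ∧ ∀ z, ‖z‖ < ρ → ‖Φ z - Φ₀ z‖ ≤ C' * ‖z‖ ^ 3 := by
    refine poincare_main GF hG (-2) (by norm_num) 3
      (by norm_num) Φ₀ hΦ₀ 4 (by norm_num) (by norm_num) ?_ g hg ?_
      (fun x => ‖x 0 ^ 3 + x 1 ^ 3 + x 2 ^ 3‖) (by fun_prop) (fun x => norm_nonneg _) 3 1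
      (by norm_num) (by norm_num) ?_ ?_ ?_ (fun x => x 0 ≠ 0 ∨ x 1 ≠ 0) ?_ ?_
    · -- derivatives
      rw [hP]
      have hv : ∀ (v : Fin 3 → ℂ) (i : Fin 3), ‖v i‖ ≤ ‖v‖ := fun v i => norm_le_pi_norm v i
      have a := fun i : Fin 3 => hasStrictFDerivAt_apply (𝕜 := ℂ) (F' := fun _ => ℂ) i
        (![-1, 1, 0] : Fin 3 → ℂ)
      intro j
      fin_cases j
      · refine ⟨_, ((a 0).mul (((a 1).pow 3).sub ((a 2).pow 3))), fun v => ?_⟩
        have h0 := hv v 0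
        have h1 := hv v 1
        simp
        have := norm_add_le (-(3 * v 1)) (v 0)
        rw [norm_neg, norm_mul] at this
        norm_num at this
        linarith
      · refine ⟨_, ((a 1).mul (((a 2).pow 3).sub ((a 0).pow 3))), fun v => ?_⟩
        have h0 := hv v 0
        have h1 := hv v 1
        simp
        have := norm_add_le (-(3 * v 0)) (v 1)
        rw [norm_neg, norm_mul] at this
        norm_num at this
        ring_nf at this ⊢
        linarith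
      · refine ⟨_, ((a 2).mul (((a 0).pow 3).sub ((a 1).pow 3))), fun v => ?_⟩
        have h0 := hv v 2
        simp
        ring_nf
        have h2 : ‖(-2 : ℂ)‖ = 2 := by norm_num
        rw [h2]
        linarith [norm_nonneg v]
    · intro z
      funext j
      fin_cases j <;> simp [GF, Φ₀, g] <;> ring
    · -- contraction
      rw [hP]
      have hc : ContinuousAt (fun x : Fin 3 → ℂ =>
          ‖(x 0 ^ 3 - x 1 ^ 3) * (x 1 ^ 3 - x 2 ^ 3) * (x 2 ^ 3 - x 0 ^ 3)‖) ![-1, 1, 0] := by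
        fun_prop
      have hc' := hc.eventually_lt_const (u := 3) (by norm_num [Matrix.cons_val_two])
      filter_upwards [hc'] with x hx
      have i1 : GF x 0 ^ 3 + GF x 1 ^ 3 + GF x 2 ^ 3 =
          ((x 0 ^ 3 - x 1 ^ 3) * (x 1 ^ 3 - x 2 ^ 3) * (x 2 ^ 3 - x 0 ^ 3)) *
            (x 0 ^ 3 + x 1 ^ 3 + x 2 ^ 3) := by
        simp only [GF]
        simp
        ring
      rw [i1, norm_mul]
      exact mul_le_mul_of_nonneg_right hx.le (norm_nonneg _)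
    · intro x hx
      have e1 : x 0 ^ 3 + x 1 ^ 3 + x 2 ^ 3 = 0 := norm_eq_zero.1 hx
      have i1 : GF x 0 ^ 3 + GF x 1 ^ 3 + GF x 2 ^ 3 =
          ((x 0 ^ 3 - x 1 ^ 3) * (x 1 ^ 3 - x 2 ^ 3) * (x 2 ^ 3 - x 0 ^ 3)) *
            (x 0 ^ 3 + x 1 ^ 3 + x 2 ^ 3) := by
        simp only [GF]
        simp
        ring
      rw [i1, e1]
      simp
    · intro z hz
      have e1 : Φ₀ z 0 ^ 3 + Φ₀ z 1 ^ 3 + Φ₀ z 2 ^ 3 = z ^ 3 := by
        simp [Φ₀]
        ring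
      rw [e1, norm_pow]
      linarith
    · -- no common zeros
      intro x hx hQ
      by_contra hcon
      push Not at hcon
      obtain ⟨c0, c1⟩ := hcon
      have e1 : x 0 ^ 3 + x 1 ^ 3 + x 2 ^ 3 = 0 := norm_eq_zero.1 hx
      have c0' : x 0 * (x 1 ^ 3 - x 2 ^ 3) = 0 := by simpa [GF] using c0
      have c1' : x 1 * (x 2 ^ 3 - x 0 ^ 3) = 0 := by simpa [GF] using c1
      have p3 : ∀ t : ℂ, t ^ 3 = 0 → t = 0 := fun t ht => pow_eq_zero_iff (by norm_num) |>.1 ht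
      rcases mul_eq_zero.1 c0' with h | h
      · have hx1 : x 1 ≠ 0 := by
          rcases hQ with h2 | h2
          · exact absurd h h2
          · exact h2
        rcases mul_eq_zero.1 c1' with h' | h'
        · exact hx1 h'
        · rw [h] at h' e1
          apply hx1
          apply p3
          linear_combination e1 - h'
      · rcases mul_eq_zero.1 c1' with h' | h'
        · rw [h'] at h e1
          have hx0 : x 0 ≠ 0 := by
            rcases hQ with h2 | h2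
            · exact h2
            · exact absurd h' h2
          apply hx0
          apply p3
          linear_combination e1 + h
        · have h3 : x 0 = 0 := p3 _ (by linear_combination (e1 - h - 2 * h') / 3)
          have h4 : x 1 = 0 := p3 _ (by linear_combination (e1 + 2 * h + h') / 3)
          rcases hQ with h2 | h2
          · exact h2 h3
          · exact h2 h4
    · rw [hP]
      have hc : ContinuousAt (fun x : Fin 3 → ℂ => x 0) ![-1, 1, 0] :=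
        (continuous_apply 0).continuousAt
      filter_upwards [hc.eventually_ne (y := 0) (by simp)] with x hx
      exact Or.inl hx
  obtain ⟨Φ, hΦ, hE, ρ, C', hρ, hC', hnear⟩ := main
  refine ⟨Φ, hΦ, fun z => norm_eq_zero.1 (hE z).1, fun z => (hE z).2, ?_⟩
  have hΦ0 : Φ 0 = Φ₀ 0 := by
    have := hnear 0 (by simpa using hρ)
    rw [norm_zero, zero_pow (by norm_num), mul_zero] at this
    exact sub_eq_zero.1 (norm_le_zero_iff.1 this)
  -- a small point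
  obtain ⟨t, ht0, ht1, ht2⟩ : ∃ t : ℝ, 0 < t ∧ t < ρ ∧ C' * t ^ 2 < 1 := by
    refine ⟨min (ρ / 2) (1 / (1 + C')), ?_, ?_, ?_⟩
    · positivity
    · exact lt_of_le_of_lt (min_le_left _ _) (by linarith)
    · set t := min (ρ / 2) (1 / (1 + C'))
      have ht : t ≤ 1 / (1 + C') := min_le_right _ _
      have ht0 : 0 < t := by positivity
      have h3 : t * (1 + C') ≤ 1 := by rwa [le_div_iff₀ (by positivity)] at ht
      have h4 : t ≤ 1 := by nlinarith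
      nlinarith [mul_nonneg hC' ht0.le]
  refine ⟨t, ?_, ?_, ?_⟩
  · rw [hΦ0, hP]; simp
  · intro h
    have h2 := hnear t (by rwa [Complex.norm_real, Real.norm_eq_abs, abs_of_pos ht0])
    have h3 := (norm_le_pi_norm (Φ t - Φ₀ t) 2).trans h2
    rw [Pi.sub_apply, h] at h3
    simp only [Φ₀, Matrix.cons_val, zero_sub, norm_neg,
      Complex.norm_real, Real.norm_eq_abs, abs_of_pos ht0] at h3
    nlinarith
  · rw [hΦ0, hP]; simp

/-! ### The curve `x⁴ + y⁴ = w²` -/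

/-- duplication -/
noncomputable def GQ (x : Fin 3 → ℂ) : Fin 3 → ℂ :=
  ![x 0 ^ 4 - x 1 ^ 4, 2 * x 0 * x 1 * x 2, x 0 ^ 8 + 6 * x 0 ^ 4 * x 1 ^ 4 + x 1 ^ 8]

theorem quartic :
    ∃ Φ : ℂ → Fin 3 → ℂ, Differentiable ℂ Φ ∧
      (∀ z, Φ z 0 ^ 4 + Φ z 1 ^ 4 = Φ z 2 ^ 2) ∧
      (∀ z, Φ z 0 ≠ 0 ∨ Φ z 1 ≠ 0) ∧ ∃ z, Φ 0 1 = 0 ∧ Φ z 1 ≠ 0 ∧ Φ 0 0 ≠ 0 := by
  have hG : Differentiable ℂ GQ := by
    rw [differentiable_pi]
    intro j
    fin_cases j <;> simp only [GQ] <;> simp <;> fun_prop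
  let Φ₀ : ℂ → Fin 3 → ℂ := fun z => ![1, z, 1]
  have hΦ₀ : Differentiable ℂ Φ₀ := by
    rw [differentiable_pi]
    intro j
    fin_cases j <;> simp only [Φ₀] <;> simp <;> fun_prop
  let g : ℂ → Fin 3 → ℂ := fun z => ![-1 / 16, 0, 6 / 16 + z ^ 4 / 256]
  have hg : Continuous g := by
    rw [continuous_pi_iff]
    intro j
    fin_cases j <;> simp only [g] <;> simp <;> fun_prop
  have hP : Φ₀ 0 = ![1, 0, 1] := by simp [Φ₀]
  have main : ∃ Φ : ℂ → Fin 3 → ℂ, Differentiable ℂ Φ ∧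
      (∀ z, ‖Φ z 0 ^ 4 + Φ z 1 ^ 4 - Φ z 2 ^ 2‖ = 0 ∧ (Φ z 0 ≠ 0 ∨ Φ z 1 ≠ 0)) ∧
      ∃ ρ C' : ℝ, 0 < ρ ∧ 0 ≤ C' ∧ ∀ z, ‖z‖ < ρ → ‖Φ z - Φ₀ z‖ ≤ C' * ‖z‖ ^ 4 := by
    refine poincare_main GQ hG 2 (by norm_num) 4
      (by norm_num) Φ₀ hΦ₀ 8 (by norm_num) (by norm_num) ?_ g hg ?_
      (fun x => ‖x 0 ^ 4 + x 1 ^ 4 - x 2 ^ 2‖) (by fun_prop) (fun x => norm_nonneg _) 1 1
      (by norm_num) (by norm_num) ?_ ?_ ?_ (fun x => x 0 ≠ 0 ∨ x 1 ≠ 0) ?_ ?_
    · -- derivatives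
      rw [hP]
      have hv : ∀ (v : Fin 3 → ℂ) (i : Fin 3), ‖v i‖ ≤ ‖v‖ := fun v i => norm_le_pi_norm v i
      have a := fun i : Fin 3 => hasStrictFDerivAt_apply (𝕜 := ℂ) (F' := fun _ => ℂ) i
        (![1, 0, 1] : Fin 3 → ℂ)
      intro j
      fin_cases j
      · refine ⟨_, (((a 0).pow 4).sub ((a 1).pow 4)), fun v => ?_⟩
        have h0 := hv v 0
        simp
        linarith [norm_nonneg v]
      · refine ⟨_, ((((a 0).const_mul 2).mul (a 1)).mul (a 2)), fun v => ?_⟩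
        have h0 := hv v 1
        simp
        linarith [norm_nonneg v]
      · refine ⟨_, ((((a 0).pow 8).add ((((a 0).pow 4).const_mul 6).mul ((a 1).pow 4))).add
          ((a 1).pow 8)), fun v => ?_⟩
        have h0 := hv v 0
        simp
        linarith [norm_nonneg v]
    · intro z
      funext j
      fin_cases j <;> simp [GQ, Φ₀, g] <;> ring
    · -- contraction
      rw [hP]
      have hc : ContinuousAt (fun x : Fin 3 → ℂ =>
          ‖16 * x 0 ^ 4 * x 1 ^ 4 * (x 2 ^ 2 + x 0 ^ 4 + x 1 ^ 4)‖) ![1, 0, 1] := by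
        fun_prop
      have hc' := hc.eventually_lt_const (u := 1) (by norm_num)
      filter_upwards [hc'] with x hx
      have i1 : GQ x 0 ^ 4 + GQ x 1 ^ 4 - GQ x 2 ^ 2 =
          (-(16 * x 0 ^ 4 * x 1 ^ 4 * (x 2 ^ 2 + x 0 ^ 4 + x 1 ^ 4))) *
            (x 0 ^ 4 + x 1 ^ 4 - x 2 ^ 2) := by
        simp only [GQ]
        simp
        ring
      rw [i1, norm_mul, norm_neg]
      exact mul_le_mul_of_nonneg_right hx.le (norm_nonneg _)
    · intro x hx
      have e1 : x 0 ^ 4 + x 1 ^ 4 - x 2 ^ 2 = 0 := norm_eq_zero.1 hx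
      have i1 : GQ x 0 ^ 4 + GQ x 1 ^ 4 - GQ x 2 ^ 2 =
          (-(16 * x 0 ^ 4 * x 1 ^ 4 * (x 2 ^ 2 + x 0 ^ 4 + x 1 ^ 4))) *
            (x 0 ^ 4 + x 1 ^ 4 - x 2 ^ 2) := by
        simp only [GQ]
        simp
        ring
      rw [i1, e1]
      simp
    · intro z hz
      have e1 : Φ₀ z 0 ^ 4 + Φ₀ z 1 ^ 4 - Φ₀ z 2 ^ 2 = z ^ 4 := by
        simp [Φ₀]
      rw [e1, norm_pow]
      linarith
    · -- no common zeros
      intro x hx hQ
      by_contra hcon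
      push Not at hcon
      obtain ⟨c0, c1⟩ := hcon
      have e1 : x 0 ^ 4 + x 1 ^ 4 - x 2 ^ 2 = 0 := norm_eq_zero.1 hx
      have c0' : x 0 ^ 4 - x 1 ^ 4 = 0 := by simpa [GQ] using c0
      have c1' : 2 * x 0 * x 1 * x 2 = 0 := by simpa [GQ] using c1
      have p4 : ∀ t : ℂ, t ^ 4 = 0 → t = 0 := fun t ht => pow_eq_zero_iff (by norm_num) |>.1 ht
      have h01 : x 0 = 0 ∧ x 1 = 0 := by
        rcases mul_eq_zero.1 c1' with h | h
        · rcases mul_eq_zero.1 h with h | h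
          · have h3 : x 0 = 0 := by linear_combination h / 2
            rw [h3] at c0'
            exact ⟨h3, p4 _ (by linear_combination -c0')⟩
          · rw [h] at c0'
            exact ⟨p4 _ (by linear_combination c0'), h⟩
        · rw [h] at e1
          exact ⟨p4 _ (by linear_combination (e1 + c0') / 2),
            p4 _ (by linear_combination (e1 - c0') / 2)⟩
      rcases hQ with h2 | h2
      · exact h2 h01.1
      · exact h2 h01.2
    · rw [hP]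
      have hc : ContinuousAt (fun x : Fin 3 → ℂ => x 0) ![1, 0, 1] :=
        (continuous_apply 0).continuousAt
      filter_upwards [hc.eventually_ne (y := 0) (by simp)] with x hx
      exact Or.inl hx
  obtain ⟨Φ, hΦ, hE, ρ, C', hρ, hC', hnear⟩ := main
  refine ⟨Φ, hΦ, fun z => sub_eq_zero.1 (norm_eq_zero.1 (hE z).1), fun z => (hE z).2, ?_⟩
  have hΦ0 : Φ 0 = Φ₀ 0 := by
    have := hnear 0 (by simpa using hρ)
    rw [norm_zero, zero_pow (by norm_num), mul_zero] at this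
    exact sub_eq_zero.1 (norm_le_zero_iff.1 this)
  -- a small point
  obtain ⟨t, ht0, ht1, ht2⟩ : ∃ t : ℝ, 0 < t ∧ t < ρ ∧ C' * t ^ 3 < 1 := by
    refine ⟨min (ρ / 2) (1 / (1 + C')), ?_, ?_, ?_⟩
    · positivity
    · exact lt_of_le_of_lt (min_le_left _ _) (by linarith)
    · set t := min (ρ / 2) (1 / (1 + C'))
      have ht : t ≤ 1 / (1 + C') := min_le_right _ _
      have ht0 : 0 < t := by positivity
      have h3 : t * (1 + C') ≤ 1 := by rwa [le_div_iff₀ (by positivity)] at ht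
      have h4 : t ≤ 1 := by nlinarith
      have h5 : t ^ 3 ≤ t := by nlinarith [mul_nonneg ht0.le (sub_nonneg.2 h4), pow_pos ht0 2]
      nlinarith [mul_nonneg hC' ht0.le]
  refine ⟨t, ?_, ?_, ?_⟩
  · rw [hΦ0, hP]; simp
  · intro h
    have h2 := hnear t (by rwa [Complex.norm_real, Real.norm_eq_abs, abs_of_pos ht0])
    have h3 := (norm_le_pi_norm (Φ t - Φ₀ t) 1).trans h2
    rw [Pi.sub_apply, h] at h3
    simp only [Φ₀, Matrix.cons_val, zero_sub, norm_neg,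
      Complex.norm_real, Real.norm_eq_abs, abs_of_pos ht0] at h3
    nlinarith
  · rw [hΦ0, hP]; simp

end Pool.Agent.W600.Ell
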