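import Pool.Agent.W600.Ell.Curves

/-!
# Entire curves in the projective line with Euclidean orbifold structure
-/

set_option autoImplicit false

namespace Pool.Agent.W600.Ell

/-- a non-constant holomorphic map `[S : T]` from the plane to the projective line -/
structure Par (S T : ℂ → ℂ) : Prop where
  hS : Differentiable ℂ S
  hT : Differentiable ℂ T
  ne : ∀ z, S z ≠ 0 ∨ T z ≠ 0
  nc : ∃ z z', S z * T z' ≠ S z' * T z

/-- `S + c T` is an `N`-th power -/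
def PowerOn (S T : ℂ → ℂ) (c : ℂ) (N : ℕ) : Prop :=
  ∃ h : ℂ → ℂ, Differentiable ℂ h ∧ ∀ z, S z + c * T z = h z ^ N

theorem PowerOn.mono {S T : ℂ → ℂ} {c : ℂ} {N M : ℕ} (h : PowerOn S T c N) (hM : M ∣ N) :
    PowerOn S T c M := by
  obtain ⟨y, hy, hy'⟩ := h
  obtain ⟨k, rfl⟩ := hM
  exact ⟨fun z => y z ^ k, hy.pow k, fun z => by rw [hy', mul_comm M k, pow_mul]⟩

/-- from two functions -/
theorem par_of {A B : ℂ → ℂ} (hA : Differentiable ℂ A) (hB : Differentiable ℂ B)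
    (hAB : ∀ z, A z ≠ 0 ∨ B z ≠ 0) (hne : ∃ z z', A z * B z' ≠ A z' * B z) {c0 c1 : ℂ}
    (h : c0 ≠ c1) : ∃ S T, Par S T ∧
      ∀ c z, S z + c * T z = ((c - c1) * A z + (c0 - c) * B z) / (c0 - c1) := by
  have h' : c0 - c1 ≠ 0 := sub_ne_zero.2 h
  refine ⟨fun z => A z - c0 * ((A z - B z) / (c0 - c1)), fun z => (A z - B z) / (c0 - c1), ?_, ?_⟩
  · refine ⟨?_, ?_, fun z => ?_, ?_⟩
    · exact hA.sub (((hA.sub hB).div_const _).const_mul _)
    · exact (hA.sub hB).div_const _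
    · by_contra hcon
      push Not at hcon
      obtain ⟨e1, e2⟩ := hcon
      rw [e2, mul_zero, sub_zero] at e1
      rw [e1, div_eq_zero_iff] at e2
      rcases e2 with e2 | e2
      · rcases hAB z with h3 | h3
        · exact h3 e1
        · exact h3 (by linear_combination -e2)
      · exact h' e2
    · obtain ⟨z, z', hz⟩ := hne
      refine ⟨z, z', fun h2 => hz ?_⟩
      have h3 : (c0 - c1) * (A z * (A z' - B z')) = (c0 - c1) * (A z' * (A z - B z)) := by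
        field_simp at h2
        linear_combination h2
      have h4 := mul_left_cancel₀ h' h3
      linear_combination -h4
  · intro c z
    show A z - c0 * ((A z - B z) / (c0 - c1)) + c * ((A z - B z) / (c0 - c1)) = _
    field_simp
    ring

theorem powerOn_of {S T h : ℂ → ℂ} {c a : ℂ} {N : ℕ} (hN : N ≠ 0) (hh : Differentiable ℂ h)
    (H : ∀ z, S z + c * T z = a * h z ^ N) : PowerOn S T c N := by
  obtain ⟨ρ, hρ⟩ := IsAlgClosed.exists_pow_nat_eq a (Nat.pos_of_ne_zero hN)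
  exact ⟨fun z => ρ * h z, hh.const_mul ρ, fun z => by rw [H, mul_pow, hρ]⟩

/-- non-proportionality of powers -/
theorem nonprop {A B : ℂ → ℂ} {z : ℂ} (h0 : B 0 = 0) (h1 : B z ≠ 0) (h2 : A 0 ≠ 0) :
    ∃ z z', A z * B z' ≠ A z' * B z :=
  ⟨0, z, by rw [h0, mul_zero]; exact mul_ne_zero h2 h1⟩

theorem e4 (c0 c1 c2 c3 : ℂ) (h01 : c0 ≠ c1) (h02 : c0 ≠ c2) (h03 : c0 ≠ c3) (h12 : c1 ≠ c2)
    (h13 : c1 ≠ c3) (h23 : c2 ≠ c3) : ∃ S T, Par S T ∧ PowerOn S T c0 2 ∧ PowerOn S T c1 2 ∧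
      PowerOn S T c2 2 ∧ PowerOn S T c3 2 := by
  have k01 := sub_ne_zero.2 h01
  have k02 := sub_ne_zero.2 h02
  have k03 := sub_ne_zero.2 h03
  have k12 := sub_ne_zero.2 h12
  have k13 := sub_ne_zero.2 h13
  have k23 := sub_ne_zero.2 h23
  set lam : ℂ := (c0 - c3) * (c1 - c2) / ((c1 - c3) * (c0 - c2)) with hlam
  have hl0 : lam ≠ 0 := by positivity
  have hl1 : lam ≠ 1 := by
    intro h
    rw [hlam, div_eq_one_iff_eq (by positivity)] at h
    have : (c0 - c1) * (c2 - c3) = 0 := by linear_combination -h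
    rcases mul_eq_zero.1 this with h' | h'
    · exact k01 h'
    · exact k23 h'
  obtain ⟨Φ, hΦ, E1, E2, hnz, z1, hz0, hz1, hz2⟩ := jacobi lam hl0 hl1
  have hd : ∀ i, Differentiable ℂ fun z => Φ z i := fun i => differentiable_pi.1 hΦ i
  obtain ⟨S, T, hP, hST⟩ := par_of (A := fun z => (c0 - c2) * Φ z 0 ^ 2)
    (B := fun z => (c1 - c2) * Φ z 1 ^ 2) (((hd 0).pow 2).const_mul _) (((hd 1).pow 2).const_mul _)
    (fun z => (hnz z).imp (fun h => mul_ne_zero k02 (pow_ne_zero 2 h))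
      (fun h => mul_ne_zero k12 (pow_ne_zero 2 h)))
    (nonprop (z := z1) (by simp [hz0]) (mul_ne_zero k12 (pow_ne_zero 2 hz1))
      (mul_ne_zero k02 (pow_ne_zero 2 hz2))) h01
  refine ⟨S, T, hP, ?_, ?_, ?_, ?_⟩
  · exact powerOn_of (a := c0 - c2) two_ne_zero (hd 0) fun z => by
      rw [hST]; field_simp; ring
  · exact powerOn_of (a := c1 - c2) two_ne_zero (hd 1) fun z => by
      rw [hST]; field_simp; ring
  · refine powerOn_of (a := (c2 - c1) * (c0 - c2) / (c0 - c1)) two_ne_zero (hd 2) fun z => ?_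
    have : Φ z 2 ^ 2 = Φ z 0 ^ 2 - Φ z 1 ^ 2 := by linear_combination E1 z
    rw [hST, this]
    field_simp
    ring
  · refine powerOn_of (a := (c3 - c1) * (c0 - c2) / (c0 - c1)) two_ne_zero (hd 3) fun z => ?_
    have : Φ z 3 ^ 2 = Φ z 0 ^ 2 - lam * Φ z 1 ^ 2 := by linear_combination E2 z
    rw [hST, this, hlam]
    field_simp
    ring

theorem e3 (c0 c1 c2 : ℂ) (h01 : c0 ≠ c1) (h02 : c0 ≠ c2) (h12 : c1 ≠ c2) :
    ∃ S T, Par S T ∧ PowerOn S T c0 3 ∧ PowerOn S T c1 3 ∧ PowerOn S T c2 3 := by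
  have k01 := sub_ne_zero.2 h01
  have k02 := sub_ne_zero.2 h02
  have k12 := sub_ne_zero.2 h12
  obtain ⟨Φ, hΦ, E, hnz, z1, hz0, hz1, hz2⟩ := fermat
  have hd : ∀ i, Differentiable ℂ fun z => Φ z i := fun i => differentiable_pi.1 hΦ i
  have hnz' : ∀ z, Φ z 0 ≠ 0 ∨ Φ z 2 ≠ 0 := by
    intro z
    by_contra hcon
    push Not at hcon
    have h := E z
    rw [hcon.1, hcon.2] at h
    have h1 : Φ z 1 = 0 := pow_eq_zero_iff (n := 3) (by norm_num) |>.1 (by linear_combination h)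
    rcases hnz z with h2 | h2
    · exact h2 hcon.1
    · exact h2 h1
  obtain ⟨S, T, hP, hST⟩ := par_of (A := fun z => (c0 - c2) * Φ z 0 ^ 3)
    (B := fun z => (c2 - c1) * Φ z 2 ^ 3) (((hd 0).pow 3).const_mul _) (((hd 2).pow 3).const_mul _)
    (fun z => (hnz' z).imp (fun h => mul_ne_zero k02 (pow_ne_zero 3 h))
      (fun h => mul_ne_zero (by
        rw [← neg_ne_zero, neg_sub]; exact k12) (pow_ne_zero 3 h)))
    (nonprop (z := z1) (by simp [hz0]) (mul_ne_zero (by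
        rw [← neg_ne_zero, neg_sub]; exact k12) (pow_ne_zero 3 hz1))
      (mul_ne_zero k02 (pow_ne_zero 3 hz2))) h01
  refine ⟨S, T, hP, ?_, ?_, ?_⟩
  · exact powerOn_of (a := c0 - c2) three_ne_zero (hd 0) fun z => by
      rw [hST]; field_simp; ring
  · exact powerOn_of (a := c2 - c1) three_ne_zero (hd 2) fun z => by
      rw [hST]; field_simp; ring
  · refine powerOn_of (a := - ((c2 - c1) * (c0 - c2) / (c0 - c1))) three_ne_zero (hd 1)
      fun z => ?_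
    have : Φ z 1 ^ 3 = - (Φ z 0 ^ 3 + Φ z 2 ^ 3) := by linear_combination E z
    rw [hST, this]
    field_simp

theorem e42 (c0 c1 c2 : ℂ) (h01 : c0 ≠ c1) (h02 : c0 ≠ c2) (h12 : c1 ≠ c2) :
    ∃ S T, Par S T ∧ PowerOn S T c0 4 ∧ PowerOn S T c1 4 ∧ PowerOn S T c2 2 := by
  have k01 := sub_ne_zero.2 h01
  have k02 := sub_ne_zero.2 h02
  have k12 := sub_ne_zero.2 h12
  have k21 := sub_ne_zero.2 h12.symm
  obtain ⟨Φ, hΦ, E, hnz, z1, hz0, hz1, hz2⟩ := quartic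
  have hd : ∀ i, Differentiable ℂ fun z => Φ z i := fun i => differentiable_pi.1 hΦ i
  obtain ⟨S, T, hP, hST⟩ := par_of (A := fun z => (c0 - c2) * Φ z 0 ^ 4)
    (B := fun z => (c2 - c1) * Φ z 1 ^ 4) (((hd 0).pow 4).const_mul _) (((hd 1).pow 4).const_mul _)
    (fun z => (hnz z).imp (fun h => mul_ne_zero k02 (pow_ne_zero 4 h))
      (fun h => mul_ne_zero k21 (pow_ne_zero 4 h)))
    (nonprop (z := z1) (by simp [hz0]) (mul_ne_zero k21 (pow_ne_zero 4 hz1))
      (mul_ne_zero k02 (pow_ne_zero 4 hz2))) h01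
  refine ⟨S, T, hP, ?_, ?_, ?_⟩
  · exact powerOn_of (a := c0 - c2) four_ne_zero (hd 0) fun z => by
      rw [hST]; field_simp; ring
  · exact powerOn_of (a := c2 - c1) four_ne_zero (hd 1) fun z => by
      rw [hST]; field_simp; ring
  · refine powerOn_of (a := (c2 - c1) * (c0 - c2) / (c0 - c1)) two_ne_zero (hd 2) fun z => ?_
    rw [hST, ← E z]
    field_simp

/-- arbitrary parameters -/
theorem e4' (c : Fin 4 → ℂ) : ∃ S T, Par S T ∧ ∀ i, PowerOn S T (c i) 2 := by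
  classical
  obtain ⟨s, hs, hcard⟩ := Infinite.exists_superset_card_eq (Finset.univ.image c) 4
    (Finset.card_image_le.trans (by simp))
  obtain ⟨e⟩ : Nonempty (s ≃ Fin 4) := ⟨Finset.equivFinOfCardEq hcard⟩
  have hinj : ∀ i j : Fin 4, i ≠ j → ((e.symm i : s) : ℂ) ≠ (e.symm j : s) := fun i j hij h =>
    hij (e.symm.injective (Subtype.ext h))
  obtain ⟨S, T, hP, p0, p1, p2, p3⟩ := e4 (e.symm 0) (e.symm 1) (e.symm 2) (e.symm 3)
    (hinj _ _ (by decide)) (hinj _ _ (by decide)) (hinj _ _ (by decide)) (hinj _ _ (by decide))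
    (hinj _ _ (by decide)) (hinj _ _ (by decide))
  refine ⟨S, T, hP, fun i => ?_⟩
  have hall : ∀ j : Fin 4, PowerOn S T (e.symm j : s) 2 := by
    intro j
    fin_cases j
    exacts [p0, p1, p2, p3]
  have := hall (e ⟨c i, hs (by simp)⟩)
  simpa using this

theorem e3' (c : Fin 3 → ℂ) : ∃ S T, Par S T ∧ ∀ i, PowerOn S T (c i) 3 := by
  classical
  obtain ⟨s, hs, hcard⟩ := Infinite.exists_superset_card_eq (Finset.univ.image c) 3
    (Finset.card_image_le.trans (by simp))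
  obtain ⟨e⟩ : Nonempty (s ≃ Fin 3) := ⟨Finset.equivFinOfCardEq hcard⟩
  have hinj : ∀ i j : Fin 3, i ≠ j → ((e.symm i : s) : ℂ) ≠ (e.symm j : s) := fun i j hij h =>
    hij (e.symm.injective (Subtype.ext h))
  obtain ⟨S, T, hP, p0, p1, p2⟩ := e3 (e.symm 0) (e.symm 1) (e.symm 2)
    (hinj _ _ (by decide)) (hinj _ _ (by decide)) (hinj _ _ (by decide))
  refine ⟨S, T, hP, fun i => ?_⟩
  have hall : ∀ j : Fin 3, PowerOn S T (e.symm j : s) 3 := by
    intro j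
    fin_cases j
    exacts [p0, p1, p2]
  have := hall (e ⟨c i, hs (by simp)⟩)
  simpa using this

theorem e42' (c0 c1 c2 : ℂ) : ∃ S T, Par S T ∧ PowerOn S T c0 4 ∧ PowerOn S T c1 4 ∧
    PowerOn S T c2 2 := by
  obtain ⟨b, hb0, hb2⟩ : ∃ b : ℂ, b ≠ c0 ∧ b ≠ c2 := by
    have := Infinite.exists_notMem_finset ({c0, c2} : Finset ℂ)
    simpa using this
  obtain ⟨b', hb0', hb1'⟩ : ∃ b : ℂ, b ≠ c0 ∧ b ≠ c1 := by
    have := Infinite.exists_notMem_finset ({c0, c1} : Finset ℂ)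
    simpa using this
  obtain ⟨b'', hb0'', hb1''⟩ : ∃ b' : ℂ, b' ≠ c0 ∧ b' ≠ b := by
    have := Infinite.exists_notMem_finset ({c0, b} : Finset ℂ)
    simpa using this
  by_cases h01 : c0 = c1
  · subst h01
    by_cases h02 : c0 = c2
    · subst h02
      obtain ⟨S, T, hP, p0, p1, p2⟩ := e42 c0 b b'' hb0.symm hb0''.symm hb1''.symm
      exact ⟨S, T, hP, p0, p0, p0.mono (by norm_num)⟩
    · obtain ⟨S, T, hP, p0, p1, p2⟩ := e42 c0 b c2 hb0.symm h02 hb2
      exact ⟨S, T, hP, p0, p0, p2⟩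
  · by_cases h02 : c0 = c2
    · subst h02
      obtain ⟨S, T, hP, p0, p1, p2⟩ := e42 c0 c1 b' h01 hb0'.symm hb1'.symm
      exact ⟨S, T, hP, p0, p1, p0.mono (by norm_num)⟩
    · by_cases h12 : c1 = c2
      · subst h12
        obtain ⟨S, T, hP, p0, p1, p2⟩ := e42 c0 c1 b' h01 hb0'.symm hb1'.symm
        exact ⟨S, T, hP, p0, p1, p1.mono (by norm_num)⟩
      · exact e42 c0 c1 c2 h01 h02 h12

end Pool.Agent.W600.Ell
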