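import Pool.Agent.W600.Ell.GGL
import Pool.Agent.W600.Ell.Arith

/-!
# Lang's conjecture for multi-cyclic covers with `K ≤ 0`
-/

set_option autoImplicit false

namespace Pool.Agent.W600.Ell

open MvPolynomial Pool.Agent.H734R3.LV

section

variable {K : Type} [Field K] {n r g : ℕ} (m e : Fin r → ℕ)
  (F : Fin r → MvPolynomial (Fin (n + 1)) K) (G : Fin g → MvPolynomial (Fin (n + 1)) K)

/-- two pairs of coordinates define the same `L`-rational point of the weighted projective space
`P(1, …, 1, e 1, …, e r)` -/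
def SamePt {L : Type} [Field L] {n r : ℕ} (e : Fin r → ℕ)
    (P Q : (Fin (n + 1) → L) × (Fin r → L)) : Prop :=
  ∃ a : L, a ≠ 0 ∧ (∀ j, Q.1 j = a * P.1 j) ∧ ∀ i, Q.2 i = a ^ e i * P.2 i

/-- the `L`-rational points of `X`, up to scaling -/
def RatPts (L : Type) [Field L] [Algebra K L] : Set ((Fin (n + 1) → L) × (Fin r → L)) :=
  {P | P.1 ≠ 0 ∧ (∀ i, P.2 i ^ m i = aeval P.1 (F i)) ∧ ∀ i, aeval P.1 (G i) = 0}

/-- `X(L)` is finite -/
def FinitelyManyPts (L : Type) [Field L] [Algebra K L] : Prop :=
  ∃ Z : Finset ((Fin (n + 1) → L) × (Fin r → L)), ∀ P ∈ RatPts m F G L, ∃ Q ∈ Z, SamePt e Q P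

/-- `X_σ` is hyperbolic: every holomorphic map from the complex plane to `X_σ` is constant -/
def HyperbolicAt (σ : K →+* ℂ) : Prop :=
  ∀ f : ℂ → (Fin (n + 1) → ℂ) × (Fin r → ℂ), Differentiable ℂ f → (∀ z, (f z).1 ≠ 0 ∧
    (∀ i, (f z).2 i ^ m i = eval₂ σ (f z).1 (F i)) ∧ ∀ i, eval₂ σ (f z).1 (G i) = 0) →
    ∀ z z', SamePt e (f z) (f z')

end

theorem lang {K : Type} [Field K] [NumberField K] {n r g : ℕ} {m e : Fin r → ℕ}
    (hm : ∀ i, 2 ≤ m i) (he : ∀ i, 0 < e i) {F : Fin r → MvPolynomial (Fin (n + 1)) K}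
    (hF : ∀ i, (F i).IsHomogeneous (m i * e i)) {G : Fin g → MvPolynomial (Fin (n + 1)) K}
    {d : Fin g → ℕ} (hG : ∀ i, (G i).IsHomogeneous (d i))
    (hK : ∑ i, (m i - 1) * e i + ∑ j, d j ≤ n + 1)
    (h0 : ∑ i, (m i - 1) * e i + ∑ j, d j = n + 1 →
      (∃ i, 3 ∣ m i ∨ 4 ∣ m i) ∨ 2 ≤ ∑ i with 2 ∣ m i, e i)
    (h0' : ∑ i, (m i - 1) * e i + ∑ j, d j = n → 0 < r)
    (hX : ∃ x : Fin (n + 1) → AlgebraicClosure K, x ≠ 0 ∧ (∀ i, aeval x (G i) = 0) ∧
      ∀ i, aeval x (F i) ≠ 0) (σ : K →+* ℂ) :
    ¬ HyperbolicAt m e F G σ ∧ ∃ (L : Type) (_ : Field L) (_ : Algebra K L),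
      FiniteDimensional K L ∧ ¬ FinitelyManyPts m e F G L := by
  classical
  obtain ⟨p, hp0, hpG, hpF⟩ := hX
  constructor
  · -- the complex side
    intro hyp
    let _ : Algebra K ℂ := σ.toAlgebra
    let τ : AlgebraicClosure K →ₐ[K] ℂ := IsAlgClosed.lift
    have hτ : ∀ H : MvPolynomial (Fin (n + 1)) K,
        eval (fun j => τ (p j)) (map σ H) = τ (aeval p H) := by
      intro H
      rw [eval_map]
      have h2 := MvPolynomial.hom_eval₂ H (algebraMap K (AlgebraicClosure K))
        (τ : AlgebraicClosure K →+* ℂ) p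
      have h1 : (τ : AlgebraicClosure K →+* ℂ).comp (algebraMap K (AlgebraicClosure K)) = σ := by
        ext a
        exact τ.commutes _
      rw [h1] at h2
      exact h2.symm
    have hτ0 : ∀ a, τ a = 0 → a = 0 := fun a h =>
      (map_eq_zero_iff (τ : AlgebraicClosure K →+* ℂ)
        (τ : AlgebraicClosure K →+* ℂ).injective).1 h
    obtain ⟨v, hv, S, T, hPar, W, hW, hX⟩ := line_curve m hm (fun i => map σ (F i)) e
      (fun i => (hF i).map σ) (fun i => map σ (G i)) d (fun i => (hG i).map σ) 1 0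
      (isHomogeneous_one _ _) (fun j => τ (p j)) (fun h => hp0 (funext fun j =>
        hτ0 _ (congrFun h j))) (fun i h => hpF i (hτ0 _ (by rw [← hτ, h])))
      (fun i => by rw [hτ, hpG, map_zero]) (by simp) he (by omega)
      (fun _ => h0) (fun _ => h0') (fun h => by omega)
    have hX' : ∀ z, (fun j => S z * τ (p j) + T z * v j) ≠ 0 := by
      intro z h
      obtain ⟨a, b⟩ := hv _ _ h
      rcases hPar.ne z with h1 | h1
      · exact h1 a
      · exact h1 b
    obtain ⟨z, z', hz⟩ := hPar.nc
    refine hz (not_same hv (e := e) (hyp (fun z => ((fun j => S z * τ (p j) + T z * v j,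
      fun i => W i z) : (Fin (n + 1) → ℂ) × (Fin r → ℂ)))
      (differentiable_curve hPar hW _ v) (fun z => ⟨hX' z, fun i => ?_, fun i => ?_⟩) z z'))
    · have := (hX z).1 i
      rwa [eval_map] at this
    · have := (hX z).2.1 i
      rwa [eval_map] at this
  · -- the arithmetic side
    have : CharZero (AlgebraicClosure K) :=
      charZero_of_injective_algebraMap (algebraMap K (AlgebraicClosure K)).injective
    have hmap : ∀ (x : Fin (n + 1) → AlgebraicClosure K) (H : MvPolynomial (Fin (n + 1)) K),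
        eval x (map (algebraMap K (AlgebraicClosure K)) H) = aeval x H := by
      intro x H
      rw [eval_map, aeval_def]
    obtain ⟨v, hv, hvG, s', hs', hvs, hinf⟩ := good_all (k := AlgebraicClosure K) m hm
      (fun i => map (algebraMap K (AlgebraicClosure K)) (F i)) e
      (fun i => ((hF i).map (algebraMap K (AlgebraicClosure K))).totalDegree_le)
      (fun i => map (algebraMap K (AlgebraicClosure K)) (G i)) d
      (fun i => ((hG i).map (algebraMap K (AlgebraicClosure K))).totalDegree_le) p hp0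
      (fun i => by rw [hmap]; exact hpF i) (fun i => by rw [hmap]; exact hpG i)
      (Finset.univ.image p) he hK h0 h0'
    let L : IntermediateField K (AlgebraicClosure K) := IntermediateField.adjoin K (s' : Set (AlgebraicClosure K))
    have hsub : Subfield.closure (s' : Set (AlgebraicClosure K)) ≤ L.toSubfield := by
      rw [Subfield.closure_le]
      exact IntermediateField.subset_adjoin K _
    have : FiniteDimensional K L := IntermediateField.finiteDimensional_adjoin fun x _ =>
      Algebra.IsIntegral.isIntegral x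
    refine ⟨L, inferInstance, inferInstance, this, ?_⟩
    rintro ⟨Z, hZ⟩
    have hpL : ∀ j, p j ∈ L := fun j => hsub (Subfield.subset_closure (hs' (by simp)))
    have hvL : ∀ j, v j ∈ L := fun j => hsub (Subfield.subset_closure (hvs j))
    -- the points
    let x : L → Fin (n + 1) → L := fun t j => ⟨p j, hpL j⟩ + t * ⟨v j, hvL j⟩
    have hxk : ∀ (t : L) j, ((x t j : L) : AlgebraicClosure K) = p j + t * v j := fun t j => rfl
    have hae : ∀ (t : L) (H : MvPolynomial (Fin (n + 1)) K),
        ((aeval (x t) H : L) : AlgebraicClosure K) = eval (fun j => p j + (t : AlgebraicClosure K) * v j)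
          (map (algebraMap K (AlgebraicClosure K)) H) := by
      intro t H
      rw [hmap]
      have := MvPolynomial.aeval_algebraMap_apply (A := L) (AlgebraicClosure K) (x t) H
      exact this.symm
    have hgood : ∀ t ∈ GoodT m (fun i => map (algebraMap K (AlgebraicClosure K)) (F i)) p v
        (Subfield.closure (s' : Set (AlgebraicClosure K))), ∃ ht : t ∈ L, ∃ w : Fin r → L,
        (x ⟨t, ht⟩, w) ∈ RatPts m F G L := by
      rintro t ⟨ht, hy⟩
      choose y hyK hy using hy
      refine ⟨hsub ht, fun i => ⟨y i, hsub (hyK i)⟩, ?_, fun i => ?_, fun i => ?_⟩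
      · intro h
        obtain ⟨h1, -⟩ := hv 1 t (by
          funext j
          have := congrArg (Subtype.val) (congrFun h j)
          rw [hxk] at this
          simpa using this)
        exact one_ne_zero h1
      · apply Subtype.ext
        rw [hae]
        exact hy i
      · apply Subtype.ext
        rw [hae]
        exact hvG i t
    have hkey : ∀ t ∈ GoodT m (fun i => map (algebraMap K (AlgebraicClosure K)) (F i)) p v
        (Subfield.closure (s' : Set (AlgebraicClosure K))), ∃ Q ∈ Z, ∃ a : L, a ≠ 0 ∧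
        ∀ j, (p j + t * v j : AlgebraicClosure K) = a * (Q.1 j : L) := by
      intro t ht
      obtain ⟨htL, w, hw⟩ := hgood t ht
      obtain ⟨Q, hQ, a, ha, h1, -⟩ := hZ _ hw
      exact ⟨Q, hQ, a, ha, fun j => congrArg Subtype.val (h1 j)⟩
    choose! Q hQZ a ha hQ using hkey
    obtain ⟨t, ht, t', ht', hne, heq⟩ := hinf.exists_ne_map_eq_of_mapsTo (f := Q)
      (t := (Z : Set ((Fin (n + 1) → L) × (Fin r → L)))) (fun t ht => hQZ t ht) Z.finite_toSet
    apply hne
    obtain ⟨h1, h2⟩ := hv ((a t' : AlgebraicClosure K) - a t) ((a t' : AlgebraicClosure K) * t - a t * t') (by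
      funext j
      have e1 := hQ t ht j
      have e2 := hQ t' ht' j
      rw [← heq] at e2
      simp only [Pi.zero_apply]
      linear_combination (a t' : AlgebraicClosure K) * e1 - (a t : AlgebraicClosure K) * e2)
    have ha' : ((a t : L) : AlgebraicClosure K) ≠ 0 := fun h => ha t ht (Subtype.ext h)
    have h3 : ((a t : L) : AlgebraicClosure K) * (t - t') = 0 := by linear_combination h2 - t * h1
    exact sub_eq_zero.1 ((mul_eq_zero.1 h3).resolve_left ha')

end Pool.Agent.W600.Ell
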