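import Mathlib

/-!
# Poincaré functions

An entire solution `Φ` of `Φ (μ z) = G (Φ z)` with prescribed jet at `0`.
-/

set_option autoImplicit false

namespace Pool.Agent.W600.Ell

open Metric Set Filter Topology

variable {k : ℕ}

/-- the approximations -/
noncomputable def approx (G : (Fin k → ℂ) → (Fin k → ℂ)) (μ : ℂ) (Φ₀ : ℂ → Fin k → ℂ) :
    ℕ → ℂ → Fin k → ℂ
  | 0 => Φ₀
  | n + 1 => fun z => G (approx G μ Φ₀ n (z / μ))

theorem poincare (G : (Fin k → ℂ) → (Fin k → ℂ)) (hG : Differentiable ℂ G) (μ : ℂ)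
    (hμ : 1 < ‖μ‖) (d : ℕ) (hd : 0 < d) (Φ₀ : ℂ → Fin k → ℂ) (hΦ₀ : Differentiable ℂ Φ₀)
    (L C δ ρ₀ : ℝ) (hδ : 0 < δ) (hL0 : 0 ≤ L) (hL : L < ‖μ‖ ^ d) (hC : 0 ≤ C) (hρ₀ : 0 < ρ₀)
    (hLip : ∀ x ∈ ball (Φ₀ 0) δ, ∀ y ∈ ball (Φ₀ 0) δ, ‖G x - G y‖ ≤ L * ‖x - y‖)
    (h0 : ∀ z, ‖z‖ < ρ₀ → ‖G (Φ₀ (z / μ)) - Φ₀ z‖ ≤ C * ‖z‖ ^ d) :
    ∃ (Φ : ℂ → Fin k → ℂ) (ρ C' : ℝ), Differentiable ℂ Φ ∧ (∀ z, Φ (μ * z) = G (Φ z)) ∧ 0 < ρ ∧
      0 ≤ C' ∧ (∀ z, ‖z‖ < ρ → ‖Φ z - Φ₀ z‖ ≤ C' * ‖z‖ ^ d) ∧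
      ∀ z, ‖z‖ < ρ → (∀ n, approx G μ Φ₀ n z ∈ ball (Φ₀ 0) δ) ∧
        Tendsto (fun n => approx G μ Φ₀ n z) atTop (𝓝 (Φ z)) := by
  have hμ0 : 0 < ‖μ‖ := by linarith
  have hμne : μ ≠ 0 := norm_pos_iff.1 hμ0
  set q : ℝ := L / ‖μ‖ ^ d with hq
  have hμd : 0 < ‖μ‖ ^ d := by positivity
  have hq0 : 0 ≤ q := by positivity
  have hq1 : q < 1 := by rw [hq, div_lt_one hμd]; exact hL
  set B : ℝ := C / (1 - q) with hB
  have hB0 : 0 ≤ B := div_nonneg hC (by linarith)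
  -- the radius
  obtain ⟨ρ, hρ, hρρ, hball⟩ : ∃ ρ, 0 < ρ ∧ ρ ≤ ρ₀ ∧ ∀ z, ‖z‖ < ρ →
      ‖Φ₀ z - Φ₀ 0‖ + B * ‖z‖ ^ d < δ := by
    have hcont : Continuous fun z : ℂ => ‖Φ₀ z - Φ₀ 0‖ + B * ‖z‖ ^ d := by
      have := hΦ₀.continuous
      fun_prop
    have h1 : (fun z : ℂ => ‖Φ₀ z - Φ₀ 0‖ + B * ‖z‖ ^ d) 0 < δ := by
      simp [hd.ne', hδ]
    have h2 := hcont.continuousAt.eventually_lt continuousAt_const h1
    obtain ⟨r, hr, hr'⟩ := Metric.eventually_nhds_iff.1 h2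
    refine ⟨min r ρ₀, lt_min hr hρ₀, min_le_right _ _, fun z hz => hr' ?_⟩
    rw [dist_zero_right]
    exact lt_of_lt_of_le hz (min_le_left _ _)
  set Ψ := approx G μ Φ₀ with hΨ
  have hdiv : ∀ z : ℂ, ‖z / μ‖ ≤ ‖z‖ := fun z => by
    rw [norm_div, div_le_iff₀ hμ0]
    nlinarith [norm_nonneg z]
  have hsum : ∀ n, (∀ m < n, ∀ z, ‖z‖ < ρ → ‖Ψ (m + 1) z - Ψ m z‖ ≤ C * q ^ m * ‖z‖ ^ d) →
      ∀ z, ‖z‖ < ρ → ‖Ψ n z - Φ₀ z‖ ≤ B * (1 - q ^ n) * ‖z‖ ^ d := by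
    intro n
    induction n with
    | zero => intro _ z _; simp [hΨ, approx]
    | succ n ih =>
      intro hm z hz
      have h1 := ih (fun m hmn => hm m (by omega)) z hz
      have h2 := hm n (by omega) z hz
      have h3 : ‖Ψ (n + 1) z - Φ₀ z‖ ≤ ‖Ψ (n + 1) z - Ψ n z‖ + ‖Ψ n z - Φ₀ z‖ := by
        have : Ψ (n + 1) z - Φ₀ z = (Ψ (n + 1) z - Ψ n z) + (Ψ n z - Φ₀ z) := by abel
        rw [this]
        exact norm_add_le _ _
      have h4 : B * (1 - q) = C := by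
        rw [hB]
        field_simp [show (1 - q) ≠ 0 by linarith]
      calc _ ≤ C * q ^ n * ‖z‖ ^ d + B * (1 - q ^ n) * ‖z‖ ^ d := h3.trans (add_le_add h2 h1)
        _ = B * (1 - q ^ (n + 1)) * ‖z‖ ^ d := by rw [← h4]; ring
  have hmem : ∀ n, (∀ m < n, ∀ z, ‖z‖ < ρ → ‖Ψ (m + 1) z - Ψ m z‖ ≤ C * q ^ m * ‖z‖ ^ d) →
      ∀ z, ‖z‖ < ρ → Ψ n z ∈ ball (Φ₀ 0) δ := by
    intro n hm z hz
    have h1 := hsum n hm z hz
    have h2 := hball z hz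
    rw [mem_ball, dist_eq_norm]
    have h3 : ‖Ψ n z - Φ₀ 0‖ ≤ ‖Ψ n z - Φ₀ z‖ + ‖Φ₀ z - Φ₀ 0‖ := by
      have : Ψ n z - Φ₀ 0 = (Ψ n z - Φ₀ z) + (Φ₀ z - Φ₀ 0) := by abel
      rw [this]
      exact norm_add_le _ _
    have h4 : B * (1 - q ^ n) * ‖z‖ ^ d ≤ B * ‖z‖ ^ d := by
      have : 0 ≤ q ^ n := by positivity
      have h5 : B * (1 - q ^ n) ≤ B := by nlinarith
      exact mul_le_mul_of_nonneg_right h5 (by positivity)
    linarith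
  have hstep : ∀ n, ∀ z, ‖z‖ < ρ → ‖Ψ (n + 1) z - Ψ n z‖ ≤ C * q ^ n * ‖z‖ ^ d := by
    intro n
    induction n using Nat.strong_induction_on with
    | _ n ih =>
      cases n with
      | zero =>
        intro z hz
        simpa [hΨ, approx] using h0 z (lt_of_lt_of_le hz hρρ)
      | succ n =>
        intro z hz
        have hz' : ‖z / μ‖ < ρ := (hdiv z).trans_lt hz
        have m1 := hmem (n + 1) (fun m hm => ih m hm) _ hz'
        have m2 := hmem n (fun m hm => ih m (by omega)) _ hz'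
        have h1 : Ψ (n + 1 + 1) z = G (Ψ (n + 1) (z / μ)) := rfl
        have h2 : Ψ (n + 1) z = G (Ψ n (z / μ)) := rfl
        rw [h1, h2]
        refine (hLip _ m1 _ m2).trans ?_
        have h3 := ih n (by omega) _ hz'
        calc L * ‖Ψ (n + 1) (z / μ) - Ψ n (z / μ)‖ ≤ L * (C * q ^ n * ‖z / μ‖ ^ d) :=
              mul_le_mul_of_nonneg_left h3 hL0
          _ = C * q ^ (n + 1) * ‖z‖ ^ d := by
              have key : ∀ t a : ℝ, L * (C * t * (a / ‖μ‖ ^ d)) = C * (t * q) * a := by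
                intro t a
                rw [hq]
                ring
              rw [norm_div, div_pow ‖z‖ ‖μ‖ d, pow_succ]
              exact key (q ^ n) (‖z‖ ^ d)
  have hmem' : ∀ n, ∀ z, ‖z‖ < ρ → Ψ n z ∈ ball (Φ₀ 0) δ := fun n =>
    hmem n fun m _ => hstep m
  have hunif : ∀ n, ∀ z, ‖z‖ < ρ → dist (Ψ n z) (Ψ (n + 1) z) ≤ C * ρ ^ d * q ^ n := by
    intro n z hz
    rw [dist_comm, dist_eq_norm]
    refine (hstep n z hz).trans ?_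
    have : ‖z‖ ^ d ≤ ρ ^ d := pow_le_pow_left₀ (norm_nonneg _) hz.le d
    have h5 : 0 ≤ C * q ^ n := by positivity
    nlinarith
  have hlim : ∀ z, ∃ a, ‖z‖ < ρ → Tendsto (fun n => Ψ n z) atTop (𝓝 a) := by
    intro z
    by_cases hz : ‖z‖ < ρ
    · obtain ⟨a, ha⟩ := cauchySeq_tendsto_of_complete
        (cauchySeq_of_le_geometric q (C * ρ ^ d) hq1 fun n => hunif n z hz)
      exact ⟨a, fun _ => ha⟩
    · exact ⟨0, fun h => absurd h hz⟩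
  choose φ hφ using hlim
  have hdist : ∀ n, ∀ z, ‖z‖ < ρ → dist (Ψ n z) (φ z) ≤ C * ρ ^ d * q ^ n / (1 - q) :=
    fun n z hz => dist_le_of_le_geometric_of_tendsto q (C * ρ ^ d) hq1 (fun n => hunif n z hz)
      (hφ z hz) n
  have hTU : TendstoUniformlyOn Ψ φ atTop (ball 0 ρ) := by
    rw [Metric.tendstoUniformlyOn_iff]
    intro ε hε
    have h1 : Tendsto (fun n : ℕ => C * ρ ^ d * q ^ n / (1 - q)) atTop (𝓝 0) := by
      have := (tendsto_pow_atTop_nhds_zero_of_lt_one hq0 hq1).const_mul (C * ρ ^ d)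
      simpa using this.div_const (1 - q)
    filter_upwards [h1.eventually_lt_const hε] with n hn z hz
    rw [mem_ball, dist_zero_right] at hz
    rw [dist_comm]
    exact (hdist n z hz).trans_lt hn
  have hΨd : ∀ n, Differentiable ℂ (Ψ n) := by
    intro n
    induction n with
    | zero => exact hΦ₀
    | succ n ih =>
      exact hG.comp (ih.comp (differentiable_id.div_const μ))
  have hφd : DifferentiableOn ℂ φ (ball 0 ρ) :=
    hTU.tendstoLocallyUniformlyOn.differentiableOn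
      (Eventually.of_forall fun n => (hΨd n).differentiableOn) isOpen_ball
  have hφeq : ∀ z, ‖z‖ < ρ → φ z = G (φ (z / μ)) := by
    intro z hz
    have hz' : ‖z / μ‖ < ρ := (hdiv z).trans_lt hz
    have h1 := (hG.continuous.tendsto _).comp (hφ _ hz')
    have h2 := (hφ z hz).comp (tendsto_add_atTop_nat 1)
    exact tendsto_nhds_unique h2 h1
  have hφ0 : ∀ z, ‖z‖ < ρ → ‖φ z - Φ₀ z‖ ≤ B * ‖z‖ ^ d := by
    intro z hz
    have h1 : Tendsto (fun n => ‖Ψ n z - Φ₀ z‖) atTop (𝓝 ‖φ z - Φ₀ z‖) :=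
      ((hφ z hz).sub_const _).norm
    refine le_of_tendsto h1 (Eventually.of_forall fun n => ?_)
    refine (hsum n (fun m _ => hstep m) z hz).trans ?_
    have : 0 ≤ q ^ n := by positivity
    have h5 : B * (1 - q ^ n) ≤ B := by nlinarith
    exact mul_le_mul_of_nonneg_right h5 (by positivity)
  -- the extension
  have hex : ∀ z : ℂ, ∃ n : ℕ, ‖z / μ ^ n‖ < ρ := by
    intro z
    have h1 : Tendsto (fun n : ℕ => ‖z‖ / ‖μ‖ ^ n) atTop (𝓝 0) :=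
      (tendsto_const_nhds).div_atTop (tendsto_pow_atTop_atTop_of_one_lt hμ)
    obtain ⟨n, hn⟩ := (h1.eventually_lt_const hρ).exists
    exact ⟨n, by rwa [norm_div, norm_pow]⟩
  have haux : ∀ (z : ℂ) (n m : ℕ), ‖z / μ ^ n‖ < ρ →
      G^[n + m] (φ (z / μ ^ (n + m))) = G^[n] (φ (z / μ ^ n)) := by
    intro z n m hz
    induction m with
    | zero => rfl
    | succ m ih =>
      rw [← ih, ← add_assoc, Function.iterate_succ_apply]
      congr 1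
      have h1 : z / μ ^ (n + m + 1) = z / μ ^ (n + m) / μ := by
        rw [pow_succ, div_div]
      rw [h1, ← hφeq]
      have h2 : z / μ ^ (n + m) = z / μ ^ n / μ ^ m := by
        rw [pow_add, div_div]
      rw [h2, norm_div, norm_pow]
      refine lt_of_le_of_lt (div_le_self (norm_nonneg _) ?_) hz
      exact one_le_pow₀ hμ.le
  have hdec : ∀ (z : ℂ) (n m : ℕ), n ≤ m → ‖z / μ ^ n‖ < ρ → ‖z / μ ^ m‖ < ρ := by
    intro z n m hnm hz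
    obtain ⟨j, rfl⟩ := Nat.exists_eq_add_of_le hnm
    have h2 : z / μ ^ (n + j) = z / μ ^ n / μ ^ j := by rw [pow_add, div_div]
    rw [h2, norm_div, norm_pow]
    exact lt_of_le_of_lt (div_le_self (norm_nonneg _) (one_le_pow₀ hμ.le)) hz
  classical
  let N : ℂ → ℕ := fun z => Nat.find (hex z)
  let F : ℂ → Fin k → ℂ := fun z => G^[N z] (φ (z / μ ^ N z))
  have hF : ∀ z n, ‖z / μ ^ n‖ < ρ → F z = G^[n] (φ (z / μ ^ n)) := by
    intro z n hn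
    obtain ⟨m, hm⟩ := Nat.exists_eq_add_of_le (Nat.find_min' (hex z) hn)
    have := haux z (N z) m (Nat.find_spec (hex z))
    rw [hm]
    exact this.symm
  have hF0 : ∀ z, ‖z‖ < ρ → F z = φ z := by
    intro z hz
    have := hF z 0 (by simpa using hz)
    simpa only [pow_zero, div_one, Function.iterate_zero, id_eq] using this
  refine ⟨F, ρ, B, ?_, ?_, hρ, hB0, ?_, fun z hz => ⟨fun n => hmem' n z hz, ?_⟩⟩
  · intro z
    obtain ⟨n, hn⟩ := hex z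
    have hopen : IsOpen {y : ℂ | ‖y / μ ^ n‖ < ρ} :=
      isOpen_lt (by fun_prop) continuous_const
    have h1 : F =ᶠ[𝓝 z] fun y => G^[n] (φ (y / μ ^ n)) := by
      filter_upwards [hopen.mem_nhds hn] with y hy
      exact hF y n hy
    refine DifferentiableAt.congr_of_eventuallyEq ?_ h1
    have h2 : Differentiable ℂ G^[n] := hG.iterate n
    refine (h2 _).comp z ?_
    have h3 : DifferentiableAt ℂ φ (z / μ ^ n) :=
      hφd.differentiableAt (isOpen_ball.mem_nhds (by rwa [mem_ball, dist_zero_right]))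
    exact h3.comp z (differentiableAt_id.div_const _)
  · intro z
    obtain ⟨n, hn⟩ := hex z
    have h1 : ‖μ * z / μ ^ (n + 1)‖ < ρ := by
      have : μ * z / μ ^ (n + 1) = z / μ ^ n := by
        rw [pow_succ]
        field_simp
      rwa [this]
    rw [hF _ (n + 1) h1, hF z n hn, Function.iterate_succ_apply']
    congr 3
    rw [pow_succ]
    field_simp
  · intro z hz
    rw [hF0 z hz]
    exact hφ0 z hz
  · rw [hF0 z hz]
    exact hφ z hz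

/-- functions which contract on the orbit vanish near `0` -/
theorem relation (G : (Fin k → ℂ) → (Fin k → ℂ)) (μ : ℂ) (hμ : 1 < ‖μ‖) (d : ℕ)
    (Φ₀ Φ : ℂ → Fin k → ℂ) (δ ρ : ℝ)
    (h : ∀ z, ‖z‖ < ρ → (∀ n, approx G μ Φ₀ n z ∈ ball (Φ₀ 0) δ) ∧
        Tendsto (fun n => approx G μ Φ₀ n z) atTop (𝓝 (Φ z)))
    (e : (Fin k → ℂ) → ℝ) (he : Continuous e) (he0 : ∀ x, 0 ≤ e x) (M C : ℝ) (hM0 : 0 ≤ M)
    (hM : M < ‖μ‖ ^ d) (hG : ∀ x ∈ ball (Φ₀ 0) δ, e (G x) ≤ M * e x)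
    (h0 : ∀ z, ‖z‖ < ρ → e (Φ₀ z) ≤ C * ‖z‖ ^ d) : ∀ z, ‖z‖ < ρ → e (Φ z) = 0 := by
  have hμ0 : 0 < ‖μ‖ := by linarith
  have hμd : 0 < ‖μ‖ ^ d := by positivity
  have hdiv : ∀ z : ℂ, ‖z / μ‖ ≤ ‖z‖ := fun z => by
    rw [norm_div, div_le_iff₀ hμ0]
    nlinarith [norm_nonneg z]
  have hind : ∀ n, ∀ z, ‖z‖ < ρ → e (approx G μ Φ₀ n z) ≤ (M / ‖μ‖ ^ d) ^ n * (C * ‖z‖ ^ d) := by
    intro n
    induction n with
    | zero => intro z hz; simpa [approx] using h0 z hz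
    | succ n ih =>
      intro z hz
      have hz' : ‖z / μ‖ < ρ := (hdiv z).trans_lt hz
      have h1 : e (approx G μ Φ₀ (n + 1) z) ≤ M * e (approx G μ Φ₀ n (z / μ)) :=
        hG _ ((h _ hz').1 n)
      refine h1.trans ((mul_le_mul_of_nonneg_left (ih _ hz') hM0).trans (le_of_eq ?_))
      rw [norm_div, div_pow ‖z‖ ‖μ‖ d, pow_succ]
      ring
  intro z hz
  refine le_antisymm ?_ (he0 _)
  have h1 : Tendsto (fun n : ℕ => (M / ‖μ‖ ^ d) ^ n * (C * ‖z‖ ^ d)) atTop (𝓝 0) := by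
    have := (tendsto_pow_atTop_nhds_zero_of_lt_one (r := M / ‖μ‖ ^ d) (by positivity)
      (by rwa [div_lt_one hμd])).mul_const (C * ‖z‖ ^ d)
    simpa using this
  exact le_of_tendsto_of_tendsto' ((he.tendsto _).comp (h z hz).2) h1 fun n => hind n z hz

/-- properties which are invariant under `G` spread from `0` to the plane -/
theorem spread (G : (Fin k → ℂ) → (Fin k → ℂ)) (μ : ℂ) (hμ : 1 < ‖μ‖) (Φ : ℂ → Fin k → ℂ)
    (hΦ : ∀ z, Φ (μ * z) = G (Φ z)) (Q : (Fin k → ℂ) → Prop) (hQ : ∀ x, Q x → Q (G x)) (ρ : ℝ)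
    (hρ : 0 < ρ) (h : ∀ z, ‖z‖ < ρ → Q (Φ z)) (z : ℂ) : Q (Φ z) := by
  have hμ0 : 0 < ‖μ‖ := by linarith
  have hμne : μ ≠ 0 := norm_pos_iff.1 hμ0
  have h1 : Tendsto (fun n : ℕ => ‖z‖ / ‖μ‖ ^ n) atTop (𝓝 0) :=
    (tendsto_const_nhds).div_atTop (tendsto_pow_atTop_atTop_of_one_lt hμ)
  obtain ⟨n, hn⟩ := (h1.eventually_lt_const hρ).exists
  have h2 : ∀ m : ℕ, ∀ y, Q (Φ y) → Q (Φ (μ ^ m * y)) := by
    intro m
    induction m with
    | zero => intro y hy; simpa using hy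
    | succ m ih =>
      intro y hy
      rw [pow_succ', mul_assoc, hΦ]
      exact hQ _ (ih y hy)
  have h3 := h2 n (z / μ ^ n) (h _ (by rwa [norm_div, norm_pow]))
  rwa [mul_div_cancel₀ _ (pow_ne_zero n hμne)] at h3

/-- Lipschitz bound from the derivative of the components -/
theorem lip_of_components (G : (Fin k → ℂ) → (Fin k → ℂ)) (P : Fin k → ℂ) (b L : ℝ) (hb : 0 ≤ b)
    (hL : b < L) (h : ∀ j, ∃ A : (Fin k → ℂ) →L[ℂ] ℂ,
      HasStrictFDerivAt (fun x => G x j) A P ∧ ∀ v, ‖A v‖ ≤ b * ‖v‖) :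
    ∃ δ > 0, ∀ x ∈ ball P δ, ∀ y ∈ ball P δ, ‖G x - G y‖ ≤ L * ‖x - y‖ := by
  choose A hA hAb using h
  have h1 : HasStrictFDerivAt G (ContinuousLinearMap.pi A) P := by
    rw [hasStrictFDerivAt_pi]
    exact hA
  have h2 : ‖ContinuousLinearMap.pi A‖ ≤ b := by
    refine ContinuousLinearMap.opNorm_le_bound _ hb fun v => ?_
    rw [pi_norm_le_iff_of_nonneg (by positivity)]
    exact fun j => hAb j v
  have hL0 : 0 ≤ L := by linarith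
  lift L to NNReal using hL0
  obtain ⟨s, hs, hlip⟩ := h1.exists_lipschitzOnWith_of_nnnorm_lt L (by
    rw [← NNReal.coe_lt_coe]
    exact lt_of_le_of_lt h2 hL)
  obtain ⟨δ, hδ, hδs⟩ := Metric.mem_nhds_iff.1 hs
  refine ⟨δ, hδ, fun x hx y hy => ?_⟩
  have := hlip.dist_le_mul x (hδs hx) y (hδs hy)
  rw [dist_eq_norm, dist_eq_norm] at this
  exact this

/-- bound from a factorisation -/
theorem bound_of_factor {E : Type*} [NormedAddCommGroup E] [NormedSpace ℂ E] (d : ℕ)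
    (F g : ℂ → E) (hg : Continuous g)
    (h : ∀ z, F z = z ^ d • g z) : ∃ C ≥ 0, ∀ z, ‖z‖ < 1 → ‖F z‖ ≤ C * ‖z‖ ^ d := by
  obtain ⟨C, hC⟩ := (isCompact_closedBall (0 : ℂ) 1).exists_bound_of_continuousOn hg.continuousOn
  refine ⟨max C 0, le_max_right _ _, fun z hz => ?_⟩
  rw [h, norm_smul, norm_pow, mul_comm]
  refine mul_le_mul_of_nonneg_right ((hC z ?_).trans (le_max_left _ _)) (by positivity)
  rw [mem_closedBall, dist_zero_right]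
  exact hz.le

theorem poincare_main (G : (Fin k → ℂ) → (Fin k → ℂ)) (hG : Differentiable ℂ G) (μ : ℂ)
    (hμ : 1 < ‖μ‖) (d : ℕ) (hd : 0 < d) (Φ₀ : ℂ → Fin k → ℂ) (hΦ₀ : Differentiable ℂ Φ₀)
    (b : ℝ) (hb0 : 0 ≤ b) (hb : b < ‖μ‖ ^ d)
    (hcomp : ∀ j, ∃ A : (Fin k → ℂ) →L[ℂ] ℂ,
      HasStrictFDerivAt (fun x => G x j) A (Φ₀ 0) ∧ ∀ v, ‖A v‖ ≤ b * ‖v‖)
    (g : ℂ → Fin k → ℂ) (hg : Continuous g)
    (hfac : ∀ z, G (Φ₀ (z / μ)) - Φ₀ z = z ^ d • g z)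
    (e : (Fin k → ℂ) → ℝ) (he : Continuous e) (hen : ∀ x, 0 ≤ e x) (M C : ℝ) (hM0 : 0 ≤ M)
    (hM : M < ‖μ‖ ^ d) (hGe : ∀ᶠ x in 𝓝 (Φ₀ 0), e (G x) ≤ M * e x)
    (hez : ∀ x, e x = 0 → e (G x) = 0) (he0 : ∀ z, ‖z‖ < 1 → e (Φ₀ z) ≤ C * ‖z‖ ^ d)
    (Q : (Fin k → ℂ) → Prop) (hQ : ∀ x, e x = 0 → Q x → Q (G x))
    (hQ0 : ∀ᶠ x in 𝓝 (Φ₀ 0), Q x) :
    ∃ Φ : ℂ → Fin k → ℂ, Differentiable ℂ Φ ∧ (∀ z, e (Φ z) = 0 ∧ Q (Φ z)) ∧
      ∃ ρ C' : ℝ, 0 < ρ ∧ 0 ≤ C' ∧ ∀ z, ‖z‖ < ρ → ‖Φ z - Φ₀ z‖ ≤ C' * ‖z‖ ^ d := by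
  obtain ⟨L, hL1, hL2⟩ := exists_between hb
  obtain ⟨δ₁, hδ₁, hlip⟩ := lip_of_components G (Φ₀ 0) b L hb0 hL1 hcomp
  obtain ⟨δ₂, hδ₂, hge⟩ := Metric.eventually_nhds_iff_ball.1 hGe
  obtain ⟨δ₃, hδ₃, hq⟩ := Metric.eventually_nhds_iff_ball.1 hQ0
  obtain ⟨C₁, hC₁, hbd⟩ := bound_of_factor d (fun z => G (Φ₀ (z / μ)) - Φ₀ z) g hg hfac
  obtain ⟨Φ, ρ, C', hΦ, hΦeq, hρ, hC', hnear, happ⟩ := poincare G hG μ hμ d hd Φ₀ hΦ₀ L C₁
    (min δ₁ δ₂) 1 (lt_min hδ₁ hδ₂) (by linarith) hL2 hC₁ one_pos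
    (fun x hx y hy => hlip x (ball_subset_ball (min_le_left _ _) hx) y
      (ball_subset_ball (min_le_left _ _) hy)) hbd
  have hrel := relation G μ hμ d Φ₀ Φ (min δ₁ δ₂) (min ρ 1)
    (fun z hz => happ z (lt_of_lt_of_le hz (min_le_left _ _))) e he hen M C hM0 hM
    (fun x hx => hge x (ball_subset_ball (min_le_right _ _) hx))
    (fun z hz => he0 z (lt_of_lt_of_le hz (min_le_right _ _)))
  have hΦ0 : Φ 0 = Φ₀ 0 := by
    have := hnear 0 (by simpa using hρ)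
    rw [norm_zero, zero_pow hd.ne', mul_zero] at this
    exact sub_eq_zero.1 (norm_le_zero_iff.1 this)
  obtain ⟨r, hr, hrQ⟩ : ∃ r > 0, ∀ z, ‖z‖ < r → Q (Φ z) := by
    have h1 : ∀ᶠ z in 𝓝 (0 : ℂ), Q (Φ z) := by
      have h2 := (hΦ.continuous.tendsto 0)
      rw [hΦ0] at h2
      exact h2.eventually hQ0
    obtain ⟨r, hr, hr'⟩ := Metric.eventually_nhds_iff.1 h1
    exact ⟨r, hr, fun z hz => hr' (by rwa [dist_zero_right])⟩
  refine ⟨Φ, hΦ, fun z => ?_, ρ, C', hρ, hC', hnear⟩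
  exact spread G μ hμ Φ hΦeq (fun x => e x = 0 ∧ Q x) (fun x hx => ⟨hez x hx.1, hQ x hx.1 hx.2⟩)
    (min (min ρ 1) r) (lt_min (lt_min hρ one_pos) hr)
    (fun z hz => ⟨hrel z (lt_of_lt_of_le hz (min_le_left _ _)),
      hrQ z (lt_of_lt_of_le hz (min_le_right _ _))⟩) z

end Pool.Agent.W600.Ell
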